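import Pool.Agent.Lib.MP_a325a5_ag.F2.SRed
import Pool.Agent.Lib.MP_a325a5_ag.F.Fin

/-! The final statement. -/

namespace BMS

open BMF Pool.Agent.Lib.MP_a325a5_ag.UL

theorem theoremFplus (α γ : Fin 3 → AlgebraicClosure ℚ) (hα : Function.Injective α)
    (hγ : ∀ j, γ j ≠ 0) (τ : AlgebraicClosure ℚ →+* ℂ)
    (h : ((τ (α 1) - τ (α 0)) * (starRingEnd ℂ) (τ (α 2) - τ (α 0))).im = 0 →
      ∀ k i j : Fin 3, k ≠ i → k ≠ j → i ≠ j →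
        {z : ℂ | ‖τ (γ k) * (z - τ (α k))‖ = 1 ∧
          ‖τ (γ i) * (z - τ (α i))‖ = ‖τ (γ j) * (z - τ (α j))‖}.Finite)
    (φ : AlgebraicClosure ℚ →+* ℂ) (n : ℕ) (a : Fin 3 → Fin n → ℤ) (ha : LinearIndependent ℤ a)
    (X : Set (Fin n → ℂˣ)) (hX : IrrClosed X) (hdim : (n : WithBot ℕ∞) ≤ zdim X + 3)
    (hline : ∀ x ∈ X, ∃ t : ℂ, ∀ j,
      ((∏ i, x i ^ a j i : ℂˣ) : ℂ) = φ (γ j) * (t - φ (α j))) :
    ¬ DenseIn (HLatyp X) X :=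
  not_dense α γ hα hγ τ (na _ _ (fun j => (map_ne_zero τ).mpr (hγ j))
    (fun _ _ hij => hα (τ.injective hij)) h) φ a ha X hX hdim hline

end BMS
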