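import Pool.Agent.Lib.MP_a325a5_ag.F.NearTri

/-! Clustering near finitely many directions, uniform in the directions: copies of `near_tri` and
`near_cov` of `F` for an arbitrary finite index set. -/

namespace BMS

open BMF

theorem near_triq {ι : Type} [Fintype ι] (g a : Fin 3 → ℂ) (hg : ∀ j, g j ≠ 0)
    (D₀ : ι → Fin 3 → ℝ)
    (hD : ∀ k, D₀ k ≠ 0) (hfin : ∀ k, (ray g a (D₀ k)).Finite) (ε : ℕ → ℝ) (hε : ∀ n, 0 < ε n) :
    ∃ N : ℕ, ∃ δ : ℝ, 0 < δ ∧ ∀ D : ι → Fin 3 → ℝ, (∀ k, ‖D k - D₀ k‖ < δ) →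
      ∃ f : ℂ → Fin N, ∀ z w : ℂ, (∃ k, Near g a δ (D k) z) → (∃ k, Near g a δ (D k) w) →
        f z = f w → ‖z - w‖ ≤ ε N * (max 1 ‖z‖ * max 1 ‖w‖) := by
  classical
  have hS : ((⋃ k, ray g a (D₀ k)) ∪ Set.range a).Finite :=
    (Set.finite_iUnion hfin).union (Set.finite_range a)
  obtain ⟨T, hT⟩ : ∃ T : Finset ℂ, ∀ e, e ∈ T ↔ e ∈ (⋃ k, ray g a (D₀ k)) ∪ Set.range a :=
    ⟨hS.toFinset, fun e => hS.mem_toFinset⟩
  obtain ⟨η, hη, hη1, hη2⟩ : ∃ η : ℝ, 0 < η ∧ 2 * η ≤ ε (T.card + 1) ∧ 2 * η ≤ 1 := by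
    refine ⟨min (ε (T.card + 1)) 1 / 2, ?_, ?_, ?_⟩
    · have := lt_min (hε (T.card + 1)) one_pos
      positivity
    · have := min_le_left (ε (T.card + 1)) 1
      linarith
    · have := min_le_right (ε (T.card + 1)) 1
      linarith
  have hloc := fun k => near_local g a hg (D₀ k) (hD k) η hη
  choose δ hδ hδ2 using hloc
  obtain ⟨δ₁, hδ₁, hle⟩ : ∃ δ₁ : ℝ, 0 < δ₁ ∧ ∀ k, δ₁ ≤ δ k := by
    have hmin : ∀ s : Finset ι, ∃ δ₀ : ℝ, 0 < δ₀ ∧ ∀ k ∈ s, δ₀ ≤ δ k := by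
      intro s
      induction s using Finset.induction_on with
      | empty => exact ⟨1, one_pos, fun k hk => absurd hk (Finset.notMem_empty k)⟩
      | insert k s _ ih =>
        obtain ⟨δ₀, h1, h2⟩ := ih
        refine ⟨min δ₀ (δ k), lt_min h1 (hδ k), fun l hl => ?_⟩
        rcases Finset.mem_insert.1 hl with rfl | hl
        · exact min_le_right _ _
        · exact (min_le_left _ _).trans (h2 l hl)
    obtain ⟨δ₁, h1, h2⟩ := hmin Finset.univ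
    exact ⟨δ₁, h1, fun k => h2 k (Finset.mem_univ k)⟩
  refine ⟨T.card + 1, δ₁, hδ₁, ?_⟩
  intro D hDD
  have key : ∀ z : ℂ, (∃ k, Near g a δ₁ (D k) z) →
      (∃ e ∈ T, ‖z - e‖ < η) ∨ 1 / η < ‖z‖ := by
    rintro z ⟨k, hk⟩
    rcases hδ2 k (D k) ((hDD k).trans_le (hle k)) z (near_mono (hle k) hk) with ⟨e, he, h⟩ | h
    · left
      refine ⟨e, (hT e).2 ?_, h⟩
      rcases he with he | he
      · exact Or.inl (Set.mem_iUnion.2 ⟨k, he⟩)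
      · exact Or.inr he
    · exact Or.inr h
  refine ⟨fun z => if h : ∃ e ∈ T, ‖z - e‖ < η then
    (T.equivFin ⟨h.choose, h.choose_spec.1⟩).castSucc else Fin.last _, ?_⟩
  intro z w hz hw hf
  have hm : 1 ≤ max 1 ‖z‖ * max 1 ‖w‖ := by
    have h1 : (1 : ℝ) ≤ max 1 ‖z‖ := le_max_left _ _
    have h2 : (1 : ℝ) ≤ max 1 ‖w‖ := le_max_left _ _
    nlinarith
  by_cases h1 : ∃ e ∈ T, ‖z - e‖ < η
  · by_cases h2 : ∃ e ∈ T, ‖w - e‖ < η
    · simp only [dif_pos h1, dif_pos h2] at hf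
      have h3 := T.equivFin.injective (Fin.castSucc_injective _ hf)
      have h4 : h1.choose = h2.choose := congrArg Subtype.val h3
      have h5 := h1.choose_spec.2
      have h6 := h2.choose_spec.2
      rw [← h4] at h6
      have h7 : ‖z - w‖ ≤ ‖z - h1.choose‖ + ‖w - h1.choose‖ := by
        have e1 : z - w = (z - h1.choose) - (w - h1.choose) := by ring
        rw [e1]
        exact norm_sub_le _ _
      have h8 := hε (T.card + 1)
      nlinarith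
    · simp only [dif_pos h1, dif_neg h2] at hf
      exact absurd hf (Fin.castSucc_lt_last _).ne
  · by_cases h2 : ∃ e ∈ T, ‖w - e‖ < η
    · simp only [dif_neg h1, dif_pos h2] at hf
      exact absurd hf.symm (Fin.castSucc_lt_last _).ne
    · have h3 := (key z hz).resolve_left h1
      have h4 := (key w hw).resolve_left h2
      rw [div_lt_iff₀ hη] at h3 h4
      have h5 : ‖z - w‖ ≤ ‖z‖ + ‖w‖ := norm_sub_le _ _
      have h6 : ‖z‖ ≤ max 1 ‖z‖ := le_max_right _ _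
      have h7 : ‖w‖ ≤ max 1 ‖w‖ := le_max_right _ _
      have h8 : ‖z‖ + ‖w‖ ≤ 2 * η * (‖z‖ * ‖w‖) := by
        have hz0 := norm_nonneg z
        have hw0 := norm_nonneg w
        nlinarith
      have h9 : ‖z‖ * ‖w‖ ≤ max 1 ‖z‖ * max 1 ‖w‖ :=
        mul_le_mul h6 h7 (norm_nonneg _) (by positivity)
      calc ‖z - w‖ ≤ 2 * η * (‖z‖ * ‖w‖) := h5.trans h8
        _ ≤ ε (T.card + 1) * (max 1 ‖z‖ * max 1 ‖w‖) :=
          mul_le_mul hη1 h9 (by positivity) (hε _).le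

theorem near_covq (ι : Type) [Fintype ι] (g a : Fin 3 → ℂ) (hg : ∀ j, g j ≠ 0)
    (hNA : ∀ d : Fin 3 → ℝ, d ≠ 0 → (ray g a d).Finite) (ε : ℕ → ℝ) (hε : ∀ n, 0 < ε n) :
    ∃ δ : ℝ, 0 < δ ∧ ∃ N₀ : ℕ, ∀ d : ι → Fin 3 → ℝ, ∃ N : ℕ, N ≤ N₀ ∧
      ∃ f : ℂ → Fin N, ∀ z w : ℂ, (∃ k, Near g a δ (d k) z) → (∃ k, Near g a δ (d k) w) →
        f z = f w → ‖z - w‖ ≤ ε N * (max 1 ‖z‖ * max 1 ‖w‖) := by
  classical
  obtain ⟨X, hXd⟩ : ∃ X : Set (ι → Fin 3 → ℝ),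
      X = Set.pi Set.univ fun _ => Metric.sphere (0 : Fin 3 → ℝ) 1 := ⟨_, rfl⟩
  have hXc : IsCompact X := by
    rw [hXd]
    exact isCompact_univ_pi fun _ => isCompact_sphere _ _
  have hXm : ∀ D, D ∈ X ↔ ∀ k, ‖D k‖ = 1 := by
    intro D
    rw [hXd]
    simp [Set.mem_pi]
  have key : ∀ D₀ : ι → Fin 3 → ℝ, ∃ N : ℕ, ∃ δ : ℝ, 0 < δ ∧ (D₀ ∈ X →
      ∀ D : ι → Fin 3 → ℝ, (∀ k, ‖D k - D₀ k‖ < δ) →
      ∃ f : ℂ → Fin N, ∀ z w : ℂ, (∃ k, Near g a δ (D k) z) → (∃ k, Near g a δ (D k) w) →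
        f z = f w → ‖z - w‖ ≤ ε N * (max 1 ‖z‖ * max 1 ‖w‖)) := by
    intro D₀
    by_cases hD : D₀ ∈ X
    · have hD0 : ∀ k, D₀ k ≠ 0 := fun k h => by
        have := (hXm D₀).1 hD k
        rw [h, norm_zero] at this
        exact zero_ne_one this
      obtain ⟨N, δ, h1, h2⟩ := near_triq g a hg D₀ hD0 (fun k => hNA _ (hD0 k)) ε hε
      exact ⟨N, δ, h1, fun _ => h2⟩
    · exact ⟨0, 1, one_pos, fun h => absurd h hD⟩
  choose N δ hδ hkey using key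
  obtain ⟨t, ht1, ht2⟩ := hXc.elim_nhds_subcover
    (fun D₀ => {D : ι → Fin 3 → ℝ | ∀ k, ‖D k - D₀ k‖ < δ D₀}) (fun D₀ _ => by
      have hopen : IsOpen {D : ι → Fin 3 → ℝ | ∀ k, ‖D k - D₀ k‖ < δ D₀} := by
        rw [Set.setOf_forall]
        refine isOpen_iInter_of_finite fun k => ?_
        exact isOpen_lt (by fun_prop) continuous_const
      refine hopen.mem_nhds fun k => ?_
      rw [sub_self, norm_zero]
      exact hδ D₀)
  have hmin : ∀ s : Finset (ι → Fin 3 → ℝ), ∃ δ₀ : ℝ, 0 < δ₀ ∧ ∀ D ∈ s, δ₀ ≤ δ D := by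
    intro s
    induction s using Finset.induction_on with
    | empty => exact ⟨1, one_pos, fun D hD => absurd hD (Finset.notMem_empty D)⟩
    | insert D s _ ih =>
      obtain ⟨δ₀, h1, h2⟩ := ih
      refine ⟨min δ₀ (δ D), lt_min h1 (hδ D), fun E hE => ?_⟩
      rcases Finset.mem_insert.1 hE with rfl | hE
      · exact min_le_right _ _
      · exact (min_le_left _ _).trans (h2 E hE)
  obtain ⟨δ₀, h1, h2⟩ := hmin t
  refine ⟨δ₀, h1, t.sup N, fun d => ?_⟩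
  obtain ⟨D, hD⟩ : ∃ D : ι → Fin 3 → ℝ, ∀ k, D k = if d k = 0 then 1 else ‖d k‖⁻¹ • d k :=
    ⟨_, fun k => rfl⟩
  have hDX : D ∈ X := by
    rw [hXm]
    intro k
    rw [hD]
    split_ifs with h
    · exact norm_one
    · exact norm_smul_inv_norm h
  obtain ⟨D₀, hD₀t, hD₀⟩ := Set.mem_iUnion₂.1 (ht2 hDX)
  obtain ⟨f, hf⟩ := hkey D₀ (ht1 D₀ hD₀t) D hD₀
  have hnear : ∀ z : ℂ, (∃ k, Near g a δ₀ (d k) z) → ∃ k, Near g a (δ D₀) (D k) z := by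
    rintro z ⟨k, hk⟩
    refine ⟨k, near_mono (h2 D₀ hD₀t) ?_⟩
    by_cases h : d k = 0
    · rw [h] at hk
      exact near_zero g a δ₀ (D k) z hk
    · have hn : 0 < ‖d k‖ := norm_pos_iff.2 h
      refine near_smul g a δ₀ (D k) ‖d k‖ hn z ?_
      rw [hD, if_neg h, smul_smul, mul_inv_cancel₀ hn.ne', one_smul]
      exact hk
  exact ⟨N D₀, Finset.le_sup hD₀t, f, fun z w hz hw => hf z w (hnear z hz) (hnear w hw)⟩

end BMS
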