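import Mathlib

/-! Two large terms of a vanishing sum. -/

namespace BMS

theorem dom {A : Type} [DecidableEq A] (s : A → ℂ) (E : Finset A) (hE : E.Nonempty)
    (hs : ∀ i ∈ E, s i ≠ 0) (h0 : ∑ i ∈ E, s i = 0) :
    ∃ i ∈ E, ∃ j ∈ E, i ≠ j ∧ |Real.log ‖s i‖ - Real.log ‖s j‖| ≤ Real.log E.card := by
  obtain ⟨i, hi, hmax⟩ := Finset.exists_max_image E (fun i => ‖s i‖) hE
  have h1 : s i = -∑ j ∈ E.erase i, s j := by
    rw [← Finset.add_sum_erase E s hi] at h0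
    linear_combination h0
  have hpos : 0 < ‖s i‖ := norm_pos_iff.2 (hs i hi)
  obtain ⟨j, hj, hj2⟩ : ∃ j ∈ E.erase i, ‖s i‖ ≤ E.card * ‖s j‖ := by
    by_contra hcon
    push Not at hcon
    have h2 : ‖s i‖ ≤ ∑ j ∈ E.erase i, ‖s j‖ := by
      rw [h1, norm_neg]
      exact norm_sum_le _ _
    have hc : (0 : ℝ) < E.card := by exact_mod_cast Finset.card_pos.2 hE
    have h3 : ∑ j ∈ E.erase i, (E.card : ℝ) * ‖s j‖ ≤ ∑ j ∈ E.erase i, ‖s i‖ :=
      Finset.sum_le_sum fun j hj => (hcon j hj).le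
    rw [← Finset.mul_sum, Finset.sum_const, nsmul_eq_mul, Finset.card_erase_of_mem hi] at h3
    have h4 : (E.card : ℝ) * ‖s i‖ ≤ ((E.card - 1 : ℕ) : ℝ) * ‖s i‖ :=
      (mul_le_mul_of_nonneg_left h2 hc.le).trans h3
    have h5 : (E.card : ℝ) ≤ ((E.card - 1 : ℕ) : ℝ) := le_of_mul_le_mul_right h4 hpos
    have h6 : E.card ≤ E.card - 1 := by exact_mod_cast h5
    have h7 := Finset.card_pos.2 hE
    omega
  have hjE := Finset.mem_of_mem_erase hj
  have hjpos : 0 < ‖s j‖ := norm_pos_iff.2 (hs j hjE)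
  have hc : (0 : ℝ) < E.card := by exact_mod_cast Finset.card_pos.2 hE
  refine ⟨i, hi, j, hjE, (Finset.ne_of_mem_erase hj).symm, ?_⟩
  have h8 : Real.log ‖s j‖ ≤ Real.log ‖s i‖ := Real.log_le_log hjpos (hmax j hjE)
  have h9 : Real.log ‖s i‖ ≤ Real.log E.card + Real.log ‖s j‖ := by
    rw [← Real.log_mul hc.ne' hjpos.ne']
    exact Real.log_le_log hpos hj2
  rw [abs_of_nonneg (by linarith)]
  linarith

end BMS
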