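import Pool.Agent.Lib.MP_a325a5_ag.F.HtC

/-! Heights of values of polynomials, of sums, and of products of real powers.

Proof.  `ht_aeval_bdd`: induction on `f` (`Polynomial.induction_on'` or a sum over the support):
`ht_add_le`, `ht_mul_le`, `ht_pow`, `ht_bdd` for the coefficients; if `B < 0` there is no `t`
(`ht_nonneg`), so one may replace `B` by `max B 0`.  `ht_fsum_le`: induction, `ht_add_le`.
`ht_of_lg`: `2 * ht x = tot |lg v x|` (`tot_abs_lg`), `|lg v x| ≤ ∑ |w j| |lg v (c j)|`, `tot_mono`,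
`tot_sum`, `tot_const_mul`, `|w j| ≤ ‖w‖`. -/

open NumberField

namespace BMS

open BMF

theorem ht_aeval_bdd {L : Type} [Field L] [NumberField L] (f : Polynomial L) (B : ℝ) :
    ∃ C : ℝ, 0 ≤ C ∧ ∀ (K : Type) [Field K] [NumberField K] [Algebra L K] (t : K),
      ht t ≤ B → ht (Polynomial.aeval t f) ≤ C := by
  induction f using Polynomial.induction_on' with
  | add p q hp hq =>
    obtain ⟨C1, h1, h2⟩ := hp
    obtain ⟨C2, h3, h4⟩ := hq
    refine ⟨C1 + C2 + Real.log 2, by have := Real.log_pos one_lt_two; positivity, ?_⟩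
    intro K _ _ _ t ht1
    rw [map_add]
    have h5 := ht_add_le (Polynomial.aeval t p) (Polynomial.aeval t q)
    have h6 := h2 K t ht1
    have h7 := h4 K t ht1
    linarith
  | monomial n a =>
    obtain ⟨C, h1, h2⟩ := ht_bdd a
    refine ⟨C + n * max B 0, by positivity, ?_⟩
    intro K _ _ _ t ht1
    rw [Polynomial.aeval_monomial]
    refine (ht_mul_le _ _).trans (add_le_add (h2 K) ?_)
    rw [ht_pow]
    exact mul_le_mul_of_nonneg_left (ht1.trans (le_max_left _ _)) (Nat.cast_nonneg n)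

theorem ht_fsum_le {K : Type} [Field K] [NumberField K] {ι : Type} (s : Finset ι) (x : ι → K) :
    ht (∑ i ∈ s, x i) ≤ ∑ i ∈ s, (ht (x i) + Real.log 2) := by
  classical
  induction s using Finset.induction_on with
  | empty => simp [ht_zero]
  | insert a s ha ih =>
    rw [Finset.sum_insert ha, Finset.sum_insert ha]
    have := ht_add_le (x a) (∑ i ∈ s, x i)
    linarith

theorem ht_of_lg {K : Type} [Field K] [NumberField K] (x : Kˣ) (c : Fin 3 → Kˣ) (w : Fin 3 → ℝ)
    (H : ℝ) (hH : ∀ j, ht (c j : K) ≤ H)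
    (h : ∀ v, lg v (x : K) = ∑ j, w j * lg v (c j : K)) : ht (x : K) ≤ 3 * ‖w‖ * H := by
  have hx : (x : K) ≠ 0 := x.ne_zero
  have hc : ∀ j, (c j : K) ≠ 0 := fun j => (c j).ne_zero
  have h0 : 0 ≤ H := (ht_nonneg _).trans (hH 0)
  have h1 : 2 * ht (x : K) ≤ ∑ j, |w j| * (2 * ht (c j : K)) := by
    rw [← tot_abs_lg hx]
    have h2 : ∀ j ∈ (Finset.univ : Finset (Fin 3)),
        FS (fun v => |w j| * |lg v (c j : K)|) := fun j _ => ((fs_lg (hc j)).abs).const_mul _
    have h3 : ∑ j, |w j| * (2 * ht (c j : K)) =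
        tot (fun v => ∑ j, |w j| * |lg v (c j : K)|) := by
      rw [tot_sum Finset.univ h2]
      refine Finset.sum_congr rfl fun j _ => ?_
      rw [tot_const_mul, tot_abs_lg (hc j)]
    rw [h3]
    refine tot_mono (fs_lg hx).abs (FS.sum Finset.univ h2) fun v => ?_
    rw [h v]
    refine (Finset.abs_sum_le_sum_abs _ _).trans (le_of_eq ?_)
    refine Finset.sum_congr rfl fun j _ => ?_
    rw [abs_mul]
  have h4 : ∑ j, |w j| * (2 * ht (c j : K)) ≤ ∑ _j : Fin 3, ‖w‖ * (2 * H) := by
    refine Finset.sum_le_sum fun j _ => ?_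
    have h5 : |w j| ≤ ‖w‖ := norm_le_pi_norm w j
    have h6 := hH j
    have h7 := ht_nonneg (c j : K)
    exact mul_le_mul h5 (by linarith) (by linarith) (norm_nonneg _)
  rw [Finset.sum_const, Finset.card_univ, Fintype.card_fin, nsmul_eq_mul] at h4
  push_cast at h4
  linarith

end BMS
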