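import Pool.Agent.Lib.MP_a325a5_ag.S.SDef
import Pool.Agent.Lib.MP_a325a5_ag.F2.HHt
import Pool.Agent.Lib.MP_a325a5_ag.F2.HDom

/-! The class sums and the local error.

Proof.  `cls_sum_ne`: the class is nonempty and proper.  `fs_cerr`, `cerr_nonneg`: clear.
`tot_cerr_le`: `tot |lg v x| = 2 ht x` (`tot_abs_lg`), `S_A / z A = ∑_{i in the class} q i * (z i / z A)`,
`ht_fsum_le`, `ht_mul_le`.
`loc_ineq`: `dom` for the class sums `σ (S_A)`, `A` in the image of `rep`: two indices `A ≠ A'` with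
`|lg (S_A) - lg (S_A')| ≤ log (n + 1)`, and `lg (S_A) = lg (S_A / z A) + lg (z A)`. -/

open NumberField

namespace BMS

open BMF

open Classical in
/-- the partial sum of the class of `A` -/
noncomputable def cls {K : Type} [Field K] {n : ℕ} (rep : Fin (n + 1) → Fin (n + 1))
    (q z : Fin (n + 1) → K) (A : Fin (n + 1)) : K :=
  ∑ i ∈ Finset.univ.filter fun i => rep i = A, q i * z i

open Classical in
/-- the local error -/
noncomputable def cerr {K : Type} [Field K] [NumberField K] {n : ℕ}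
    (rep : Fin (n + 1) → Fin (n + 1)) (q z : Fin (n + 1) → K) (v : Pl K) : ℝ :=
  ∑ A ∈ Finset.univ.image rep, |lg v (cls rep q z A / z A)|

theorem cls_sum_ne {K : Type} [Field K] {n : ℕ} (rep : Fin (n + 1) → Fin (n + 1))
    (q z : Fin (n + 1) → K) (h : NVS fun i => q i * z i) (h2 : ∃ i j, rep i ≠ rep j)
    (A : Fin (n + 1)) (hA : ∃ i, rep i = A) : cls rep q z A ≠ 0 := by
  classical
  obtain ⟨i, j, hij⟩ := h2
  obtain ⟨i0, hi0⟩ := hA
  unfold cls
  refine h.2 _ ⟨i0, by simpa using hi0⟩ ?_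
  intro hu
  have h1 : rep i = A := by
    have := Finset.mem_univ i
    rw [← hu, Finset.mem_filter] at this
    exact this.2
  have h3 : rep j = A := by
    have := Finset.mem_univ j
    rw [← hu, Finset.mem_filter] at this
    exact this.2
  exact hij (h1.trans h3.symm)

theorem cerr_nonneg {K : Type} [Field K] [NumberField K] {n : ℕ}
    (rep : Fin (n + 1) → Fin (n + 1)) (q z : Fin (n + 1) → K) (v : Pl K) :
    0 ≤ cerr rep q z v := by
  unfold cerr
  exact Finset.sum_nonneg fun _ _ => abs_nonneg _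

private theorem HLoc_ne {K : Type} [Field K] {n : ℕ}
    (rep : Fin (n + 1) → Fin (n + 1)) (q z : Fin (n + 1) → K) (h : NVS fun i => q i * z i)
    (h2 : ∃ i j, rep i ≠ rep j) (hz : ∀ i, z i ≠ 0) [DecidableEq (Fin (n + 1))]
    (A : Fin (n + 1)) (hA : A ∈ Finset.univ.image rep) : cls rep q z A / z A ≠ 0 := by
  rw [Finset.mem_image] at hA
  obtain ⟨i, _, hi⟩ := hA
  exact div_ne_zero (cls_sum_ne rep q z h h2 A ⟨i, hi⟩) (hz A)

theorem fs_cerr {K : Type} [Field K] [NumberField K] {n : ℕ}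
    (rep : Fin (n + 1) → Fin (n + 1)) (q z : Fin (n + 1) → K) (h : NVS fun i => q i * z i)
    (h2 : ∃ i j, rep i ≠ rep j) (hz : ∀ i, z i ≠ 0) : FS (cerr rep q z) := by
  unfold cerr
  exact FS.sum _ fun A hA => (fs_lg (HLoc_ne rep q z h h2 hz A hA)).abs

theorem tot_cerr_le {K : Type} [Field K] [NumberField K] {n : ℕ}
    (rep : Fin (n + 1) → Fin (n + 1)) (q z : Fin (n + 1) → K) (h : NVS fun i => q i * z i)
    (h2 : ∃ i j, rep i ≠ rep j) (hz : ∀ i, z i ≠ 0) (Q R : ℝ) (hQ : ∀ i, ht (q i) ≤ Q)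
    (hR : ∀ i, ht (z i / z (rep i)) ≤ R) :
    tot (cerr rep q z) ≤ 2 * (n + 1) ^ 2 * (Q + R + Real.log 2) := by
  classical
  have hl2 : 0 ≤ Real.log 2 := Real.log_nonneg (by norm_num)
  have hQ0 : 0 ≤ Q := (ht_nonneg _).trans (hQ 0)
  have hR0 : 0 ≤ R := (ht_nonneg _).trans (hR 0)
  have e1 : tot (cerr rep q z) = ∑ A ∈ Finset.univ.image rep, 2 * ht (cls rep q z A / z A) := by
    have h3 : cerr rep q z = fun v => ∑ A ∈ Finset.univ.image rep,
        |lg v (cls rep q z A / z A)| := by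
      funext v
      unfold cerr
      refine Finset.sum_congr ?_ fun _ _ => rfl
      ext x
      simp only [Finset.mem_image]
    rw [h3, tot_sum]
    · refine Finset.sum_congr rfl fun A hA => ?_
      exact tot_abs_lg (HLoc_ne rep q z h h2 hz A hA)
    · exact fun A hA => (fs_lg (HLoc_ne rep q z h h2 hz A hA)).abs
  have e2 : ∀ A ∈ Finset.univ.image rep, ht (cls rep q z A / z A) ≤
      ∑ i ∈ Finset.univ.filter (fun i => rep i = A), (Q + R + Real.log 2) := by
    intro A _
    have h4 : cls rep q z A / z A =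
        ∑ i ∈ Finset.univ.filter (fun i => rep i = A), q i * (z i / z A) := by
      unfold cls
      rw [Finset.sum_div]
      refine Finset.sum_congr ?_ fun i _ => by rw [mul_div_assoc]
      ext x
      simp only [Finset.mem_filter]
    rw [h4]
    refine (ht_fsum_le _ _).trans (Finset.sum_le_sum fun i hi => ?_)
    have h5 : rep i = A := (Finset.mem_filter.1 hi).2
    have h6 : ht (q i * (z i / z A)) ≤ Q + R := by
      rw [← h5]
      exact (ht_mul_le _ _).trans (add_le_add (hQ i) (hR i))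
    linarith
  have e3 : ∑ A ∈ Finset.univ.image rep,
      ∑ i ∈ Finset.univ.filter (fun i => rep i = A), (Q + R + Real.log 2) =
      (n + 1) * (Q + R + Real.log 2) := by
    rw [Finset.sum_fiberwise_of_maps_to (s := Finset.univ) (t := Finset.univ.image rep)
      (g := rep) (fun i _ => Finset.mem_image_of_mem _ (Finset.mem_univ i))
      (fun _ => Q + R + Real.log 2)]
    simp
    ring
  rw [e1, ← Finset.mul_sum]
  have e4 := Finset.sum_le_sum e2
  rw [e3] at e4
  have hn : (0 : ℝ) ≤ n := Nat.cast_nonneg n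
  have hc : 0 ≤ Q + R + Real.log 2 := by linarith
  nlinarith [mul_nonneg (mul_nonneg hn (by linarith : (0 : ℝ) ≤ n + 1)) hc]

theorem loc_ineq {K : Type} [Field K] [NumberField K] {n : ℕ}
    (rep : Fin (n + 1) → Fin (n + 1)) (q z : Fin (n + 1) → K) (h : NVS fun i => q i * z i)
    (h2 : ∃ i j, rep i ≠ rep j) (hz : ∀ i, z i ≠ 0) (σ : K →+* ℂ) :
    ∃ A A' : Fin (n + 1), (∃ i, rep i = A) ∧ (∃ i, rep i = A') ∧ A ≠ A' ∧
      |lg (.inl σ) (z A) - lg (.inl σ) (z A')| ≤
        Real.log (n + 1) + cerr rep q z (.inl σ) := by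
  classical
  set E : Finset (Fin (n + 1)) := Finset.univ.image rep with hE
  have hmem : ∀ A ∈ E, ∃ i, rep i = A := by
    intro A hA
    rw [hE, Finset.mem_image] at hA
    obtain ⟨i, _, hi⟩ := hA
    exact ⟨i, hi⟩
  have hEn : E.Nonempty := ⟨rep 0, Finset.mem_image_of_mem _ (Finset.mem_univ _)⟩
  have hne : ∀ A ∈ E, cls rep q z A ≠ 0 := fun A hA => cls_sum_ne rep q z h h2 A (hmem A hA)
  have hsum : ∑ A ∈ E, σ (cls rep q z A) = 0 := by
    rw [← map_sum]
    have : ∑ A ∈ E, cls rep q z A = ∑ i, q i * z i := by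
      rw [← Finset.sum_fiberwise_of_maps_to (s := Finset.univ) (t := E) (g := rep)
        (fun i _ => Finset.mem_image_of_mem _ (Finset.mem_univ i)) (fun i => q i * z i)]
      refine Finset.sum_congr rfl fun A _ => ?_
      unfold cls
      refine Finset.sum_congr ?_ fun _ _ => rfl
      ext x
      simp only [Finset.mem_filter]
    rw [this, h.1, map_zero]
  obtain ⟨A, hA, A', hA', hAA, hlog⟩ := dom (fun A => σ (cls rep q z A)) E hEn
    (fun A hA => by rw [ne_eq, map_eq_zero]; exact hne A hA) hsum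
  refine ⟨A, A', hmem A hA, hmem A' hA', hAA, ?_⟩
  have hcard : Real.log E.card ≤ Real.log (n + 1) := by
    refine Real.log_le_log (by exact_mod_cast Finset.card_pos.2 hEn) ?_
    have := Finset.card_le_univ E
    rw [Fintype.card_fin] at this
    exact_mod_cast this
  have hcerr : |lg (.inl σ) (cls rep q z A / z A)| + |lg (.inl σ) (cls rep q z A' / z A')| ≤
      cerr rep q z (.inl σ) := by
    have h3 : cerr rep q z (.inl σ) = ∑ A ∈ E, |lg (.inl σ) (cls rep q z A / z A)| := by
      unfold cerr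
      refine Finset.sum_congr ?_ fun _ _ => rfl
      rw [hE]
    rw [h3, ← Finset.sum_pair (f := fun A => |lg (.inl σ) (cls rep q z A / z A)|) hAA]
    refine Finset.sum_le_sum_of_subset_of_nonneg ?_ fun _ _ _ => abs_nonneg _
    intro x hx
    rw [Finset.mem_insert, Finset.mem_singleton] at hx
    rcases hx with rfl | rfl
    · exact hA
    · exact hA'
  have hl : |lg (.inl σ) (cls rep q z A) - lg (.inl σ) (cls rep q z A')| ≤ Real.log E.card := by
    exact hlog
  have e1 := lg_div (.inl σ) (hne A hA) (hz A)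
  have e2 := lg_div (.inl σ) (hne A' hA') (hz A')
  have a1 := abs_le.1 hl
  have a2 := abs_le.1 (le_refl |lg (.inl σ) (cls rep q z A / z A)|)
  have a3 := abs_le.1 (le_refl |lg (.inl σ) (cls rep q z A' / z A')|)
  rw [abs_le]
  constructor <;> linarith [a1.1, a1.2, a2.1, a2.2, a3.1, a3.2]

end BMS
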