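import Pool.Agent.Lib.MP_a325a5_ag.F.GalEx
import Pool.Agent.Lib.MP_a325a5_ag.F.CntEmb

/-! At each embedding above `τ` at least half of the conjugates have a small local error (Markov).

Proof.  The embeddings `σ.comp g`, `g ∈ Gal (F / L)`, are pairwise different, so
`∑ g, b (.inl (σ.comp g)) ≤ ∑ᶠ v, b v = [F : ℚ] * tot b ≤ [L : ℚ] * |Gal| * β` (`b ≥ 0`, `FS b`,
`finsum_split`, `IsGalois.card_aut_eq_finrank`, `Module.finrank_mul_finrank`).  So the number of `g` with
`2 * [L : ℚ] * β < b (.inl (σ.comp g))` is less than `|Gal| / 2` (if `β = 0` all values are `0`).  Let `P`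
be the set of the `g t` with `g` not of this kind.  All fibres of `g ↦ g t`, `Gal → O`, have the same number
`|Gal| / |O|` of elements (`g ↦ g' g` maps fibres to fibres), and the fibres of the elements of `O \ P`
consist of bad `g`: `|O \ P| * (|Gal| / |O|) ≤ |Gal| / 2`. -/

open NumberField

namespace BMS

open BMF

private theorem hmark_sum {F : Type} [Field F] [NumberField F] {G : Type} [Fintype G]
    (b : Pl F → ℝ) (hb : FS b) (hb0 : ∀ v, 0 ≤ b v) (β : ℝ) (hβ : tot b ≤ β)
    (f : G → (F →+* ℂ)) (hf : Function.Injective f) :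
    ∑ g, b (.inl (f g)) ≤ (Module.finrank ℚ F : ℝ) * β := by
  classical
  have h1 : ∑ g, b (.inl (f g)) ≤ ∑ σ : F →+* ℂ, b (.inl σ) := by
    rw [← Finset.sum_image (s := Finset.univ) (g := f) (f := fun σ => b (.inl σ))
      (fun a _ c _ h => hf h)]
    exact Finset.sum_le_sum_of_subset_of_nonneg (Finset.subset_univ _) fun σ _ _ => hb0 _
  have h2 : ∑ σ : F →+* ℂ, b (.inl σ) ≤ ∑ᶠ v, b v := by
    rw [finsum_split hb]
    have := finsum_nonneg (f := fun w : FinitePlace F => b (.inr w)) fun w => hb0 _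
    linarith
  have h3 : ∑ᶠ v, b v = (Module.finrank ℚ F : ℝ) * tot b := by
    unfold tot
    rw [mul_div_cancel₀ _ finrank_pos.ne']
  have h4 : (Module.finrank ℚ F : ℝ) * tot b ≤ (Module.finrank ℚ F : ℝ) * β :=
    mul_le_mul_of_nonneg_left hβ finrank_pos.le
  linarith

private theorem hmark_bad {G : Type} [Fintype G] (c : G → ℝ) (hc : ∀ g, 0 ≤ c g) (D : ℝ)
    (hD : 0 ≤ D) (hsum : 2 * ∑ g, c g ≤ Fintype.card G * D) (B : Finset G)
    (hB : ∀ g ∈ B, D < c g) : 2 * B.card ≤ Fintype.card G := by
  classical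
  rcases B.eq_empty_or_nonempty with rfl | hne
  · simp
  have h1 : (B.card : ℝ) * D < ∑ g ∈ B, c g := by
    have := Finset.sum_lt_sum_of_nonempty hne hB
    rwa [Finset.sum_const, nsmul_eq_mul] at this
  have h2 : ∑ g ∈ B, c g ≤ ∑ g, c g :=
    Finset.sum_le_sum_of_subset_of_nonneg (Finset.subset_univ _) fun g _ _ => hc g
  have h3 : 2 * ((B.card : ℝ) * D) < Fintype.card G * D := by linarith
  have h4 : 0 < D := by
    rcases hD.lt_or_eq with h | h
    · exact h
    · rw [← h] at h3
      simp at h3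
  have h5 : (2 * (B.card : ℝ)) < Fintype.card G := by
    by_contra h6
    push Not at h6
    nlinarith
  have h6 : 2 * B.card < Fintype.card G := by exact_mod_cast h5
  omega

theorem markov {L F : Type} [Field L] [NumberField L] [Field F] [NumberField F] [Algebra L F]
    [IsGalois L F] (t : F) (O : Finset F) (hO : ∀ x : F, x ∈ O ↔ ∃ g : F ≃ₐ[L] F, x = g t)
    (b : Pl F → ℝ) (hb : FS b) (hb0 : ∀ v, 0 ≤ b v) (β : ℝ) (hβ : tot b ≤ β) (σ : F →+* ℂ) :
    ∃ P ⊆ O, O.card ≤ 2 * P.card ∧ ∀ x ∈ P, ∃ g : F ≃ₐ[L] F, x = g t ∧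
      b (.inl (σ.comp (g : F →+* F))) ≤ 2 * (Module.finrank ℚ L : ℝ) * β := by
  classical
  have hL : IsScalarTower ℚ L F := IsScalarTower.rat
  have hfin : FiniteDimensional L F := Module.Finite.of_restrictScalars_finite ℚ L F
  have hcardG : Fintype.card (F ≃ₐ[L] F) = Module.finrank L F := by
    rw [← Nat.card_eq_fintype_card]
    exact IsGalois.card_aut_eq_finrank L F
  have hinj : Function.Injective fun g : F ≃ₐ[L] F => σ.comp (g : F →+* F) := by
    intro g g' h
    ext x
    apply σ.injective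
    exact congrArg (fun f : F →+* ℂ => f x) h
  have hsum := hmark_sum b hb hb0 β hβ _ hinj
  have hβ0 : 0 ≤ β := (tot_nonneg hb0).trans hβ
  have hd0 : (0 : ℝ) < (Module.finrank ℚ L : ℝ) := finrank_pos
  -- the bad automorphisms
  set bad : Finset (F ≃ₐ[L] F) := Finset.univ.filter fun g =>
    2 * (Module.finrank ℚ L : ℝ) * β < b (.inl (σ.comp (g : F →+* F))) with hbad
  have hbadc : 2 * bad.card ≤ Fintype.card (F ≃ₐ[L] F) := by
    apply hmark_bad (fun g : F ≃ₐ[L] F => b (.inl (σ.comp (g : F →+* F)))) (fun g => hb0 _)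
      (2 * (Module.finrank ℚ L : ℝ) * β) (by positivity)
    · rw [← Module.finrank_mul_finrank ℚ L F] at hsum
      rw [hcardG]
      push_cast at hsum
      nlinarith
    · intro g hg
      exact (Finset.mem_filter.mp hg).2
  set P : Finset F := O.filter fun x => ∃ g : F ≃ₐ[L] F, x = g t ∧
      b (.inl (σ.comp (g : F →+* F))) ≤ 2 * (Module.finrank ℚ L : ℝ) * β with hP
  refine ⟨P, Finset.filter_subset _ _, ?_, fun x hx => (Finset.mem_filter.mp hx).2⟩
  -- the fibres
  have hfib : ∀ x ∈ O, (Finset.univ.filter fun g : F ≃ₐ[L] F => g t = x).card =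
      (Finset.univ.filter fun g : F ≃ₐ[L] F => g t = t).card := by
    intro x hx
    obtain ⟨g0, rfl⟩ := (hO x).mp hx
    symm
    apply Finset.card_bij (fun g _ => g0 * g)
    · intro g hg
      rw [Finset.mem_filter] at hg ⊢
      refine ⟨Finset.mem_univ _, ?_⟩
      rw [AlgEquiv.mul_apply, hg.2]
    · intro g _ g' _ h
      exact mul_left_cancel h
    · intro g hg
      rw [Finset.mem_filter] at hg
      refine ⟨g0⁻¹ * g, ?_, mul_inv_cancel_left _ _⟩
      rw [Finset.mem_filter]
      refine ⟨Finset.mem_univ _, ?_⟩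
      rw [AlgEquiv.mul_apply, hg.2, ← AlgEquiv.mul_apply, inv_mul_cancel]
      rfl
  set s := (Finset.univ.filter fun g : F ≃ₐ[L] F => g t = t).card with hs
  have hs0 : 0 < s := Finset.card_pos.mpr ⟨1, Finset.mem_filter.mpr ⟨Finset.mem_univ _, rfl⟩⟩
  have hN : Fintype.card (F ≃ₐ[L] F) = O.card * s := by
    have h1 := Finset.card_eq_sum_card_fiberwise (s := (Finset.univ : Finset (F ≃ₐ[L] F)))
      (t := O) (f := fun g => g t) (fun g _ => (hO _).mpr ⟨g, rfl⟩)
    rw [Finset.card_univ] at h1
    rw [h1, Finset.sum_congr rfl hfib, Finset.sum_const, smul_eq_mul]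
  have hB : (O \ P).card * s ≤ bad.card := by
    have h1 := Finset.card_eq_sum_card_fiberwise
      (s := bad.filter fun g => g t ∈ O \ P)
      (t := O \ P) (f := fun g => g t) (fun g hg => (Finset.mem_filter.mp hg).2)
    have h2 : ∑ x ∈ O \ P, ((bad.filter fun g => g t ∈ O \ P).filter fun g => g t = x).card =
        (O \ P).card * s := by
      rw [Finset.sum_const_nat]
      intro x hx
      have hxO := (Finset.mem_sdiff.mp hx).1
      rw [← hfib x hxO]
      congr 1
      ext g
      simp only [Finset.mem_filter, Finset.mem_univ, true_and]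
      constructor
      · rintro ⟨-, h⟩
        exact h
      · intro h
        refine ⟨⟨?_, ?_⟩, h⟩
        · rw [hbad, Finset.mem_filter]
          refine ⟨Finset.mem_univ _, ?_⟩
          by_contra hcon
          push Not at hcon
          apply (Finset.mem_sdiff.mp hx).2
          rw [hP, Finset.mem_filter]
          exact ⟨hxO, g, h.symm, hcon⟩
        · rw [h]
          exact hx
    rw [← h2, ← h1]
    exact Finset.card_filter_le _ _
  have hsplit : (O \ P).card + P.card = O.card :=
    Finset.card_sdiff_add_card_eq_card (Finset.filter_subset _ _)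
  rw [hN] at hbadc
  have h7 : 2 * ((O \ P).card * s) ≤ O.card * s := le_trans (by omega) hbadc
  have h8 : 2 * (O \ P).card ≤ O.card := by
    by_contra h9
    push Not at h9
    have := Nat.mul_lt_mul_of_pos_right h9 hs0
    rw [mul_assoc] at this
    omega
  omega

end BMS
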