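import Mathlib

/-! A vector in a plane of `ℝ³` that is almost orthogonal to a long vector of the plane. -/

namespace BMS

/-- the cross product -/
def crs (r u : Fin 3 → ℝ) : Fin 3 → ℝ :=
  ![r 1 * u 2 - r 2 * u 1, r 2 * u 0 - r 0 * u 2, r 0 * u 1 - r 1 * u 0]

theorem plane (r u v : Fin 3 → ℝ) (hr : r ≠ 0) (hru : ∑ j, r j * u j = 0)
    (hrv : ∑ j, r j * v j = 0) (e R : ℝ) (hR : 0 < R) (huR : R ≤ ‖u‖)
    (he : |∑ j, u j * v j| ≤ e) : ∃ x : ℝ, ∀ j, |v j - x * crs r u j| ≤ e / R := by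
  rw [Fin.sum_univ_three] at hru hrv he
  have hrr : 0 < r 0 ^ 2 + r 1 ^ 2 + r 2 ^ 2 := by
    by_contra hcon
    apply hr
    have h0 : r 0 ^ 2 = 0 := by nlinarith [sq_nonneg (r 0), sq_nonneg (r 1), sq_nonneg (r 2)]
    have h1 : r 1 ^ 2 = 0 := by nlinarith [sq_nonneg (r 0), sq_nonneg (r 1), sq_nonneg (r 2)]
    have h2 : r 2 ^ 2 = 0 := by nlinarith [sq_nonneg (r 0), sq_nonneg (r 1), sq_nonneg (r 2)]
    funext j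
    fin_cases j
    · exact pow_eq_zero_iff (two_ne_zero) |>.1 h0
    · exact pow_eq_zero_iff (two_ne_zero) |>.1 h1
    · exact pow_eq_zero_iff (two_ne_zero) |>.1 h2
  have hun : 0 < ‖u‖ := hR.trans_le huR
  obtain ⟨k, hk⟩ : ∃ k, ‖u‖ = |u k| := by
    obtain ⟨k, -, hk⟩ := Finset.exists_max_image Finset.univ (fun k => |u k|) ⟨0, Finset.mem_univ _⟩
    refine ⟨k, le_antisymm ?_ (norm_le_pi_norm u k)⟩
    rw [pi_norm_le_iff_of_nonneg (abs_nonneg _)]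
    exact fun i => hk i (Finset.mem_univ _)
  have huu : ‖u‖ ^ 2 ≤ u 0 ^ 2 + u 1 ^ 2 + u 2 ^ 2 := by
    rw [hk, sq_abs]
    fin_cases k
    · show u 0 ^ 2 ≤ _
      nlinarith [sq_nonneg (u 1), sq_nonneg (u 2)]
    · show u 1 ^ 2 ≤ _
      nlinarith [sq_nonneg (u 0), sq_nonneg (u 2)]
    · show u 2 ^ 2 ≤ _
      nlinarith [sq_nonneg (u 0), sq_nonneg (u 1)]
  have huu0 : 0 < u 0 ^ 2 + u 1 ^ 2 + u 2 ^ 2 := lt_of_lt_of_le (by positivity) huu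
  set q := crs r u with hq
  have hq0 : q 0 = r 1 * u 2 - r 2 * u 1 := rfl
  have hq1 : q 1 = r 2 * u 0 - r 0 * u 2 := rfl
  have hq2 : q 2 = r 0 * u 1 - r 1 * u 0 := rfl
  have hqq : q 0 ^ 2 + q 1 ^ 2 + q 2 ^ 2 =
      (r 0 ^ 2 + r 1 ^ 2 + r 2 ^ 2) * (u 0 ^ 2 + u 1 ^ 2 + u 2 ^ 2) := by
    rw [hq0, hq1, hq2]
    linear_combination (-(r 0 * u 0 + r 1 * u 1 + r 2 * u 2)) * hru
  have hqq0 : 0 < q 0 ^ 2 + q 1 ^ 2 + q 2 ^ 2 := by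
    rw [hqq]
    positivity
  refine ⟨(q 0 * v 0 + q 1 * v 1 + q 2 * v 2) / (q 0 ^ 2 + q 1 ^ 2 + q 2 ^ 2), fun j => ?_⟩
  have key : v j - (q 0 * v 0 + q 1 * v 1 + q 2 * v 2) / (q 0 ^ 2 + q 1 ^ 2 + q 2 ^ 2) * q j =
      (u 0 * v 0 + u 1 * v 1 + u 2 * v 2) / (u 0 ^ 2 + u 1 ^ 2 + u 2 ^ 2) * u j := by
    have h1 : v j * (q 0 ^ 2 + q 1 ^ 2 + q 2 ^ 2) =
        (q 0 * v 0 + q 1 * v 1 + q 2 * v 2) * q j +
        (r 0 ^ 2 + r 1 ^ 2 + r 2 ^ 2) * (u 0 * v 0 + u 1 * v 1 + u 2 * v 2) * u j := by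
      fin_cases j
      · show v 0 * (q 0 ^ 2 + q 1 ^ 2 + q 2 ^ 2) =
          (q 0 * v 0 + q 1 * v 1 + q 2 * v 2) * q 0 +
          (r 0 ^ 2 + r 1 ^ 2 + r 2 ^ 2) * (u 0 * v 0 + u 1 * v 1 + u 2 * v 2) * u 0
        rw [hq0, hq1, hq2]
        linear_combination ((u 0 ^ 2 + u 1 ^ 2 + u 2 ^ 2) * r 0 -
          (r 0 * u 0 + r 1 * u 1 + r 2 * u 2) * u 0) * hrv -
          (u 0 * v 0 + u 1 * v 1 + u 2 * v 2) * r 0 * hru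
      · show v 1 * (q 0 ^ 2 + q 1 ^ 2 + q 2 ^ 2) =
          (q 0 * v 0 + q 1 * v 1 + q 2 * v 2) * q 1 +
          (r 0 ^ 2 + r 1 ^ 2 + r 2 ^ 2) * (u 0 * v 0 + u 1 * v 1 + u 2 * v 2) * u 1
        rw [hq0, hq1, hq2]
        linear_combination ((u 0 ^ 2 + u 1 ^ 2 + u 2 ^ 2) * r 1 -
          (r 0 * u 0 + r 1 * u 1 + r 2 * u 2) * u 1) * hrv -
          (u 0 * v 0 + u 1 * v 1 + u 2 * v 2) * r 1 * hru
      · show v 2 * (q 0 ^ 2 + q 1 ^ 2 + q 2 ^ 2) =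
          (q 0 * v 0 + q 1 * v 1 + q 2 * v 2) * q 2 +
          (r 0 ^ 2 + r 1 ^ 2 + r 2 ^ 2) * (u 0 * v 0 + u 1 * v 1 + u 2 * v 2) * u 2
        rw [hq0, hq1, hq2]
        linear_combination ((u 0 ^ 2 + u 1 ^ 2 + u 2 ^ 2) * r 2 -
          (r 0 * u 0 + r 1 * u 1 + r 2 * u 2) * u 2) * hrv -
          (u 0 * v 0 + u 1 * v 1 + u 2 * v 2) * r 2 * hru
    rw [hqq] at h1 ⊢
    field_simp
    linear_combination h1
  rw [key, abs_mul, abs_div, abs_of_pos huu0]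
  have h2 : |u j| ≤ ‖u‖ := norm_le_pi_norm u j
  have h3 : 0 ≤ e := (abs_nonneg _).trans he
  calc |u 0 * v 0 + u 1 * v 1 + u 2 * v 2| / (u 0 ^ 2 + u 1 ^ 2 + u 2 ^ 2) * |u j|
      ≤ e / ‖u‖ ^ 2 * ‖u‖ := by
        refine mul_le_mul ?_ h2 (abs_nonneg _) (by positivity)
        exact div_le_div₀ h3 he (by positivity) huu
    _ = e / ‖u‖ := by
        field_simp
    _ ≤ e / R := div_le_div_of_nonneg_left h3 hR huR

end BMS
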