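import Mathlib

/-! Classes with representatives. -/

namespace BMS

theorem exists_rep {A : Type} (P : A → A → Prop) (h : Equivalence P) :
    ∃ rep : A → A, (∀ i, P i (rep i)) ∧ ∀ i j, P i j ↔ rep i = rep j := by
  let S : Setoid A := ⟨P, h⟩
  refine ⟨fun i => (Quotient.mk S i).out, fun i => ?_, fun i j => ?_⟩
  · exact h.symm (Quotient.exact (s := S) (Quotient.out_eq _))
  · constructor
    · intro hij
      have : Quotient.mk S i = Quotient.mk S j := Quotient.sound hij
      simp only [this]
    · intro hij
      have h1 : Quotient.mk S i = Quotient.mk S j := by
        have h2 := congrArg (Quotient.mk S) hij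
        simpa only [Quotient.out_eq] using h2
      exact Quotient.exact h1

end BMS
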