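import Pool.Agent.Lib.MP_a325a5_ag.F.OneRel
import Pool.Agent.Lib.MP_a325a5_ag.F.GalEx
import Pool.Agent.Lib.MP_a325a5_ag.F2.HCov
import Pool.Agent.Lib.MP_a325a5_ag.F2.HDisc
import Pool.Agent.Lib.MP_a325a5_ag.F2.HRep
import Pool.Agent.Lib.MP_a325a5_ag.F2.HPlane
import Pool.Agent.Lib.MP_a325a5_ag.F2.HMark
import Pool.Agent.Lib.MP_a325a5_ag.F2.HLoc

/-! The clustering argument in a Galois extension, general case. -/

open NumberField

namespace BMS

open BMF

private theorem HClus_num (c N : ℕ) (n R : ℝ) (hn : 0 ≤ n) (hR : 0 ≤ R) (hN : 0 < N) (hc : 0 < c)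
    (h : ((c : ℝ) ^ 2 / (4 * N) - c / 2) * (8 * N * (n * R + 1)) ≤ n * ((c : ℝ) * (c - 1) * R)) :
    c ≤ 4 * N := by
  by_contra hlt
  push Not at hlt
  have hN' : (0 : ℝ) < N := by exact_mod_cast hN
  have hc' : (0 : ℝ) < c := by exact_mod_cast hc
  have hlt' : 4 * (N : ℝ) < c := by exact_mod_cast hlt
  have h1 : ((c : ℝ) ^ 2 / (4 * N) - c / 2) * (8 * N * (n * R + 1)) =
      (2 * (c : ℝ) ^ 2 - 4 * N * c) * (n * R + 1) := by
    field_simp
    ring
  rw [h1] at h
  have hnR : 0 ≤ n * R := mul_nonneg hn hR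
  have h2 : (c : ℝ) ^ 2 ≤ 2 * (c : ℝ) ^ 2 - 4 * N * c := by nlinarith
  have h3 : (c : ℝ) ^ 2 * (n * R + 1) ≤ (2 * (c : ℝ) ^ 2 - 4 * N * c) * (n * R + 1) :=
    mul_le_mul_of_nonneg_right h2 (by linarith)
  have h4 : n * ((c : ℝ) * (c - 1) * R) = (c : ℝ) ^ 2 * (n * R) - c * (n * R) := by ring
  have h5 : 0 ≤ (c : ℝ) * (n * R) := mul_nonneg hc'.le hnR
  have h6 : 0 < (c : ℝ) ^ 2 := by positivity
  nlinarith

/-- the heights of the coordinates of the line -/
theorem HClus_ht {L : Type} [Field L] [NumberField L] (α γ : Fin 3 → L) (Bt : ℝ) :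
    ∃ H : ℝ, 0 ≤ H ∧ ∀ (K : Type) [Field K] [NumberField K] [Algebra L K] (t : K), ht t ≤ Bt →
      ∀ j, ht (algebraMap L K (γ j) * (t - algebraMap L K (α j))) ≤ H := by
  choose cg hcg0 hcg using fun j => ht_bdd (L := L) (γ j)
  choose ca hca0 hca using fun j => ht_bdd (L := L) (α j)
  have hl2 : 0 ≤ Real.log 2 := Real.log_nonneg (by norm_num)
  have hsg : 0 ≤ ∑ j, cg j := Finset.sum_nonneg fun j _ => hcg0 j
  have hsa : 0 ≤ ∑ j, ca j := Finset.sum_nonneg fun j _ => hca0 j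
  refine ⟨∑ j, cg j + (max Bt 0 + ∑ j, ca j + Real.log 2), by positivity, ?_⟩
  intro K _ _ _ t ht0 j
  have h1 := ht_mul_le (algebraMap L K (γ j)) (t - algebraMap L K (α j))
  have h2 := ht_sub_le t (algebraMap L K (α j))
  have h3 : ht (algebraMap L K (γ j)) ≤ ∑ j, cg j :=
    (hcg j K).trans (Finset.single_le_sum (f := cg) (fun j _ => hcg0 j) (Finset.mem_univ j))
  have h4 : ht (algebraMap L K (α j)) ≤ ∑ j, ca j :=
    (hca j K).trans (Finset.single_le_sum (f := ca) (fun j _ => hca0 j) (Finset.mem_univ j))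
  have h5 := le_max_left Bt 0
  linarith

theorem clus_gen {L : Type} [Field L] [NumberField L] (α γ : Fin 3 → L)
    (hα : Function.Injective α) (hγ : ∀ j, γ j ≠ 0) (τ : L →+* ℂ)
    (hNA : ∀ d : Fin 3 → ℝ, d ≠ 0 → (ray (fun j => τ (γ j)) (fun j => τ (α j)) d).Finite)
    (n : ℕ) (f : Fin (n + 1) → Polynomial L) :
    ∃ Φ : ℝ → ℝ, (∀ x, 1 ≤ x → 2 * x ≤ Φ x) ∧ ∃ D₁ : ℕ, ∀ (F : Type) [Field F] [NumberField F]
      [Algebra L F] [IsGalois L F] (t : F) (c : Fin 3 → Fˣ) (z : Fin (n + 1) → Fˣ),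
      (∀ j, (c j : F) = algebraMap L F (γ j) * (t - algebraMap L F (α j))) →
      NVS (fun i => Polynomial.aeval t (f i) * (z i : F)) →
      ∀ r : Fin 3 → ℤ, r ≠ 0 → ∏ j, c j ^ r j = 1 → ∀ W : Fin (n + 1) → Fin 3 → ℝ,
      (∀ i, ∑ j, (r j : ℝ) * W i j = 0) →
      (∀ v i, lg v (z i : F) = ∑ j, W i j * lg v (c j : F)) →
      ∀ ρ : ℝ, 1 ≤ ρ → (∀ i j, ‖W i - W j‖ ≤ ρ ∨ Φ ρ < ‖W i - W j‖) →
      (∃ i j, ρ < ‖W i - W j‖) → (minpoly L t).natDegree ≤ D₁ := by
  classical
  obtain ⟨B, hB0, hB⟩ := one_rel α γ hα hγ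
  obtain ⟨H, hH0, hH⟩ := HClus_ht α γ B
  choose Q' hQ'0 hQ' using fun i => ht_aeval_bdd (f i) B
  set Q : ℝ := ∑ i, Q' i with hQdef
  have hQ0 : 0 ≤ Q := Finset.sum_nonneg fun i _ => hQ'0 i
  set l : ℝ := (Module.finrank ℚ L : ℝ) with hl
  have hl0 : 0 < l := finrank_pos
  set R : ℝ := 2 * B + Real.log 2 with hR
  have hlog2 : 0 ≤ Real.log 2 := Real.log_nonneg (by norm_num)
  have hR0 : 0 ≤ R := by linarith
  have hlR : 0 ≤ l * R := mul_nonneg hl0.le hR0
  set ε : ℕ → ℝ := fun N => 2 * Real.exp (-(8 * N * (l * R + 1))) with hε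
  have hε0 : ∀ N, 0 < ε N := fun N => by
    simp only [hε]
    positivity
  have hγ' : ∀ j, τ (γ j) ≠ 0 := fun j h0 => hγ j ((map_eq_zero τ).1 h0)
  obtain ⟨δ, hδ, N₀, hcov⟩ := near_covq (Fin (n + 1) × Fin (n + 1) × Bool)
    (fun j => τ (γ j)) (fun j => τ (α j)) hγ' hNA ε hε0
  set β : ℝ → ℝ := fun ρ => 2 * (n + 1) ^ 2 * (Q + 3 * ρ * H + Real.log 2) with hβ
  set e : ℝ → ℝ := fun ρ => Real.log (n + 1) + 2 * l * β ρ with he
  refine ⟨fun ρ => max (2 * ρ) (e ρ / δ), fun x _ => le_max_left _ _, 4 * N₀, ?_⟩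
  intro F _ _ _ _ t c z hc hnvs r hr hrel W hWr hWz ρ hρ hgap hex
  set Φρ : ℝ := max (2 * ρ) (e ρ / δ) with hΦρ
  have hΦ2 : 2 * ρ ≤ Φρ := le_max_left _ _
  have hΦpos : 0 < Φρ := by linarith
  have heΦ : e ρ / Φρ ≤ δ := by
    rw [div_le_iff₀ hΦpos]
    have h1 : e ρ / δ ≤ Φρ := le_max_right _ _
    rw [div_le_iff₀ hδ] at h1
    linarith
  -- the classes
  have hequiv : Equivalence fun i j : Fin (n + 1) => ‖W i - W j‖ ≤ ρ := by
    refine ⟨fun i => by simp; linarith, fun {i j} h => by rwa [norm_sub_rev], ?_⟩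
    intro i j k h1 h2
    rcases hgap i k with h3 | h3
    · exact h3
    · exfalso
      have h4 : W i - W k = (W i - W j) + (W j - W k) := by abel
      have h5 : ‖W i - W k‖ ≤ ‖W i - W j‖ + ‖W j - W k‖ := by
        rw [h4]
        exact norm_add_le _ _
      have h6 : Φρ < ‖W i - W k‖ := h3
      linarith
  obtain ⟨rep, hrep1, hrep2⟩ := exists_rep _ hequiv
  have hz0 : ∀ i, (z i : F) ≠ 0 := fun i => (z i).ne_zero
  have h2cls : ∃ i j, rep i ≠ rep j := by
    obtain ⟨i, j, hij⟩ := hex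
    refine ⟨i, j, fun h => ?_⟩
    have := (hrep2 i j).2 h
    linarith
  -- heights
  have hne : ∀ j, t ≠ algebraMap L F (α j) := by
    intro j hj
    have h1 := hc j
    rw [hj, sub_self, mul_zero] at h1
    exact (c j).ne_zero h1
  have hrel' : ∏ j, (algebraMap L F (γ j) * (t - algebraMap L F (α j))) ^ r j = 1 := by
    have h5 := congrArg (fun u : Fˣ => (u : F)) hrel
    simp only [Units.coe_prod, Units.val_zpow_eq_zpow_val, Units.val_one] at h5
    rw [← h5]
    exact Finset.prod_congr rfl fun j _ => by rw [hc j]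
  have htt : ht t ≤ B := hB F t hne r hr hrel'
  have hcH : ∀ j, ht (c j : F) ≤ H := fun j => by
    rw [hc j]
    exact hH F t htt j
  have hq : ∀ i, ht (Polynomial.aeval t (f i)) ≤ Q := fun i =>
    (hQ' i F t htt).trans
      (Finset.single_le_sum (f := Q') (fun i _ => hQ'0 i) (Finset.mem_univ i))
  have hzz : ∀ i, ht ((z i : F) / z (rep i)) ≤ 3 * ρ * H := by
    intro i
    have h1 := ht_of_lg (z i / z (rep i)) c (W i - W (rep i)) H hcH (by
      intro v
      rw [Units.val_div_eq_div_val, lg_div v (hz0 i) (hz0 _), hWz, hWz,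
        ← Finset.sum_sub_distrib]
      exact Finset.sum_congr rfl fun j _ => by simp only [Pi.sub_apply]; ring)
    rw [Units.val_div_eq_div_val] at h1
    refine h1.trans ?_
    have h2 : ‖W i - W (rep i)‖ ≤ ρ := hrep1 i
    exact mul_le_mul_of_nonneg_right (mul_le_mul_of_nonneg_left h2 (by norm_num)) hH0
  have htot : tot (cerr rep (fun i => Polynomial.aeval t (f i)) fun i => (z i : F)) ≤ β ρ :=
    tot_cerr_le rep _ _ hnvs h2cls hz0 Q (3 * ρ * H) hq hzz
  obtain ⟨M, hM, f', hf'⟩ := hcov fun k =>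
    if k.2.2 then crs (fun j => (r j : ℝ)) (W k.1 - W k.2.1)
    else -crs (fun j => (r j : ℝ)) (W k.1 - W k.2.1)
  obtain ⟨O, hO, hcard⟩ := card_orbit (L := L) t
  have hr' : (fun j => (r j : ℝ)) ≠ 0 := by
    intro h0
    apply hr
    funext j
    have := congrFun h0 j
    simpa using this
  have hlgr : ∀ v : Pl F, ∑ j, (r j : ℝ) * lg v (c j : F) = 0 := by
    intro v
    have h5 := congrArg (fun u : Fˣ => lg v (u : F)) hrel
    simp only [Units.val_one, lg_one, Fin.prod_univ_three, Units.val_mul,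
      Units.val_zpow_eq_zpow_val] at h5
    rw [lg_mul v (mul_ne_zero (zpow_ne_zero _ (c 0).ne_zero) (zpow_ne_zero _ (c 1).ne_zero))
      (zpow_ne_zero _ (c 2).ne_zero), lg_mul v (zpow_ne_zero _ (c 0).ne_zero)
      (zpow_ne_zero _ (c 1).ne_zero), lg_zpow, lg_zpow, lg_zpow] at h5
    rw [Fin.sum_univ_three]
    exact h5
  -- a good embedding is near
  have hnear : ∀ σ : F →+* ℂ, σ.comp (algebraMap L F) = τ →
      cerr rep (fun i => Polynomial.aeval t (f i)) (fun i => (z i : F)) (.inl σ) ≤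
        2 * l * β ρ → ∃ k : Fin (n + 1) × Fin (n + 1) × Bool,
        Near (fun j => τ (γ j)) (fun j => τ (α j)) δ
          (if k.2.2 then crs (fun j => (r j : ℝ)) (W k.1 - W k.2.1)
            else -crs (fun j => (r j : ℝ)) (W k.1 - W k.2.1)) (σ t) := by
    intro σ hσ hgood
    obtain ⟨A, A', ⟨i, hi⟩, ⟨i', hi'⟩, hAA, hle⟩ := loc_ineq rep
      (fun i => Polynomial.aeval t (f i)) (fun i => (z i : F)) hnvs h2cls hz0 σ
    have hAA' : Φρ ≤ ‖W A - W A'‖ := by
      rcases hgap A A' with h | h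
      · exfalso
        have h1 := (hrep2 A A').1 h
        have h3 : ∀ k, rep (rep k) = rep k := fun k => ((hrep2 k (rep k)).1 (hrep1 k)).symm
        apply hAA
        rw [← hi, ← hi', h3, h3, ] at h1
        rw [← hi, ← hi']
        exact h1
      · exact h.le
    have hle2 : |∑ j, (W A - W A') j * lg (.inl σ) (c j : F)| ≤ e ρ := by
      have h1 : ∑ j, (W A - W A') j * lg (.inl σ) (c j : F) =
          lg (.inl σ) (z A : F) - lg (.inl σ) (z A' : F) := by
        rw [hWz, hWz, ← Finset.sum_sub_distrib]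
        exact Finset.sum_congr rfl fun j _ => by simp only [Pi.sub_apply]; ring
      rw [h1]
      refine hle.trans ?_
      simp only [he]
      linarith
    obtain ⟨x, hx⟩ := plane (fun j => (r j : ℝ)) (W A - W A') (fun j => lg (.inl σ) (c j : F)) hr'
      (by
        have h1 := hWr A
        have h2 := hWr A'
        simp only [Fin.sum_univ_three, Pi.sub_apply] at h1 h2 ⊢
        linarith) (hlgr _) (e ρ) Φρ hΦpos hAA' hle2
    have hσc : ∀ x : L, σ (algebraMap L F x) = τ x := fun x => by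
      rw [← hσ]
      rfl
    have hcoord : ∀ j, Real.log ‖τ (γ j) * (σ t - τ (α j))‖ = lg (.inl σ) (c j : F) := by
      intro j
      rw [hc j]
      unfold lg
      rw [av_inl, map_mul, map_sub, hσc, hσc]
    have hne' : ∀ j, σ t ≠ τ (α j) := by
      intro j hj
      rw [← hσc] at hj
      exact hne j (σ.injective hj)
    rcases le_total 0 x with hx0 | hx0
    · refine ⟨(A, A', true), hne', x, hx0, fun j => ?_⟩
      simp only [if_true]
      rw [hcoord j]
      exact (hx j).trans heΦ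
    · refine ⟨(A, A', false), hne', -x, by linarith, fun j => ?_⟩
      simp only [Bool.false_eq_true, if_false, Pi.neg_apply]
      rw [hcoord j, neg_mul_neg]
      exact (hx j).trans heΦ
  have hM0 : 0 < M := by
    rcases Nat.eq_zero_or_pos M with h0 | h0
    · subst h0
      exact (f' 0).elim0
    · exact h0
  have hε2 : ε M ≤ 2 := by
    simp only [hε]
    have h1 : Real.exp (-(8 * M * (l * R + 1))) ≤ 1 := by
      rw [Real.exp_le_one_iff]
      have : (0 : ℝ) ≤ 8 * M * (l * R + 1) := by positivity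
      linarith
    linarith
  have hBO : ∀ x ∈ O, ht x ≤ B := by
    intro x hx
    obtain ⟨g, rfl⟩ := (hO x).1 hx
    refine hB F (g t) ?_ r hr ?_
    · intro j h0
      apply hne j
      apply g.injective
      rw [h0, g.commutes]
    · have h1 := congrArg g hrel'
      simp only [map_prod, map_zpow₀, map_mul, map_sub, g.commutes, map_one] at h1
      exact h1
  have hd := disc_half τ O B hBO M f' (ε M) (hε0 M) hε2 (by
    intro σ hσ
    obtain ⟨P, hPO, hPc, hP⟩ := markov (L := L) t O hO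
      (cerr rep (fun i => Polynomial.aeval t (f i)) fun i => (z i : F))
      (fs_cerr rep _ _ hnvs h2cls hz0) (cerr_nonneg rep _ _) (β ρ) htot σ
    refine ⟨P, hPO, hPc, fun x hx y hy hxy => ?_⟩
    obtain ⟨g, hg, hgb⟩ := hP x hx
    obtain ⟨g', hg', hgb'⟩ := hP y hy
    have hcomp : ∀ g : F ≃ₐ[L] F, (σ.comp (g : F →+* F)).comp (algebraMap L F) = τ := by
      intro g
      rw [← hσ]
      ext x
      simp
    have hk := hnear _ (hcomp g) hgb
    have hk' := hnear _ (hcomp g') hgb'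
    have e1 : (σ.comp (g : F →+* F)) t = σ x := by
      rw [hg]
      rfl
    have e2 : (σ.comp (g' : F →+* F)) t = σ y := by
      rw [hg']
      rfl
    rw [e1] at hk
    rw [e2] at hk'
    exact hf' _ _ hk hk' hxy)
  have hlog : Real.log (2 / ε M) = 8 * M * (l * R + 1) := by
    simp only [hε]
    rw [div_mul_eq_div_div, div_self (two_ne_zero), one_div, ← Real.exp_neg, neg_neg, Real.log_exp]
  rw [hlog] at hd
  have hOpos : 0 < O.card := Finset.card_pos.2 ⟨t, (hO t).2 ⟨AlgEquiv.refl, rfl⟩⟩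
  have h1 := HClus_num O.card M l R hl0.le hR0 hM0 hOpos hd
  rw [← hcard]
  omega

end BMS
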