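import Mathlib

/-! A gap between scales. -/

namespace BMS

theorem gap (Φ : ℝ → ℝ) (hΦ : ∀ x, 1 ≤ x → 2 * x ≤ Φ x) (m : ℕ) :
    ∃ R : ℝ, 1 ≤ R ∧ ∀ S : Finset ℝ, S.card ≤ m →
      ∃ ρ, 1 ≤ ρ ∧ ρ ≤ R ∧ ∀ s ∈ S, s ≤ ρ ∨ Φ ρ < s := by
  have h1 : ∀ l : ℕ, 1 ≤ Φ^[l] 1 := by
    intro l
    induction l with
    | zero => simp
    | succ l ih =>
      rw [Function.iterate_succ_apply']
      have := hΦ _ ih
      linarith
  have h2 : StrictMono fun l : ℕ => Φ^[l] (1 : ℝ) := by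
    refine strictMono_nat_of_lt_succ fun l => ?_
    simp only [Function.iterate_succ_apply']
    have h3 := hΦ _ (h1 l)
    have h4 := h1 l
    linarith
  refine ⟨Φ^[m] 1, h1 m, fun S hS => ?_⟩
  by_contra hcon
  push Not at hcon
  have h3 : ∀ l : Fin (m + 1), ∃ s ∈ S, Φ^[l] 1 < s ∧ s ≤ Φ^[(l : ℕ) + 1] 1 := by
    intro l
    obtain ⟨s, hs, h4, h5⟩ := hcon (Φ^[l] 1) (h1 l) (h2.monotone (by omega : (l : ℕ) ≤ m))
    exact ⟨s, hs, h4, by rwa [Function.iterate_succ_apply']⟩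
  choose s hs h4 h5 using h3
  have hinj : Function.Injective s := by
    have key : ∀ l l' : Fin (m + 1), l < l' → s l < s l' := by
      intro l l' hl
      have h6 : Φ^[(l : ℕ) + 1] 1 ≤ Φ^[(l' : ℕ)] (1 : ℝ) := h2.monotone (by
        have : (l : ℕ) < l' := hl
        omega)
      exact ((h5 l).trans h6).trans_lt (h4 l')
    intro l l' hl
    rcases lt_trichotomy l l' with h | h | h
    · exact absurd hl (key _ _ h).ne
    · exact h
    · exact absurd hl (key _ _ h).ne'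
  have h6 := Finset.card_le_card_of_injOn (s := Finset.univ) (t := S) s (fun l _ => hs l)
    hinj.injOn
  rw [Finset.card_univ, Fintype.card_fin] at h6
  omega

end BMS
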