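import Mathlib

/-! The exponent vectors, projected orthogonally to the relation. -/

namespace BMS

/-- the projection of `a / N` to the orthogonal complement of `r` -/
noncomputable def Wv (r : Fin 3 → ℤ) (N : ℕ) (a : Fin 3 → ℤ) : Fin 3 → ℝ := fun j =>
  (a j : ℝ) / N - (∑ l, (a l : ℝ) * r l) / (N * ∑ l, (r l : ℝ) ^ 2) * r j

theorem Wv_perp (r : Fin 3 → ℤ) (hr : r ≠ 0) (N : ℕ) (hN : 0 < N) (a : Fin 3 → ℤ) :
    ∑ j, (r j : ℝ) * Wv r N a j = 0 := by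
  have h0 : 0 < ∑ l, (r l : ℝ) ^ 2 := by
    obtain ⟨k, hk⟩ := Function.ne_iff.1 hr
    refine Finset.sum_pos' (fun _ _ => sq_nonneg _) ⟨k, Finset.mem_univ k, ?_⟩
    have : (r k : ℝ) ≠ 0 := by exact_mod_cast hk
    positivity
  have hN' : (N : ℝ) ≠ 0 := by positivity
  unfold Wv
  simp only [Fin.sum_univ_three] at h0 ⊢
  have := h0.ne'
  field_simp
  ring

theorem Wv_eq (r : Fin 3 → ℤ) (N : ℕ) (hN : 0 < N) (a : Fin 3 → ℤ) (v : Fin 3 → ℝ) (x : ℝ)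
    (hv : ∑ j, (r j : ℝ) * v j = 0) (hx : N * x = ∑ j, (a j : ℝ) * v j) :
    x = ∑ j, Wv r N a j * v j := by
  have hN' : (N : ℝ) ≠ 0 := by positivity
  have h1 : ∑ j, Wv r N a j * v j = (∑ j, (a j : ℝ) * v j) / N -
      (∑ l, (a l : ℝ) * r l) / (N * ∑ l, (r l : ℝ) ^ 2) * ∑ j, (r j : ℝ) * v j := by
    unfold Wv
    simp only [Fin.sum_univ_three]
    ring
  rw [h1, hv, ← hx, mul_zero, sub_zero]
  field_simp

end BMS
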