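import Pool.Agent.Lib.MP_a325a5_ag.F2.HCases
import Pool.Agent.Lib.MP_a325a5_ag.F2.HWv
import Pool.Agent.Lib.MP_a325a5_ag.F2.HGap
import Pool.Agent.Lib.MP_a325a5_ag.F2.HClus

/-! Bounded heights or bounded degree (Proposition 2).

Proof.  `one_rel` bounds `ht t` by `C₁` and the heights of the `c j` by `H` (as in `F/Clus.lean`).  `Φ`, `D₁`
from `clus_gen`, `R` from `gap Φ` with `m = (n + 1) ^ 2`; the bound for the `ht (z i / z 0)` is `3 * R * H`.
Let `K`, `t`, `c`, `z` be given.  `cases_hull`: a relation `r`, and either two independent relations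
(third alternative) or `z i ^ N i = ∏ c ^ a i`.  `W i = Wv r (N i) (a i)`; for every number field `F`
and embedding of `K` into `F` (in particular `K` itself) `Wv_eq` gives
`lg v (z i) = ∑ W i j * lg v (c j)` at all places of `F`.  `gap` for the set of all `‖W i - W j‖`: `ρ ≤ R`.
If all `‖W i - W j‖ ≤ ρ` then `ht (z i / z 0) ≤ 3 * ρ * H` (`ht_of_lg` with `w = W i - W 0`).  Otherwise
embed `K` into a Galois extension (`exists_galois`, compare `F/Clus.lean`) and apply `clus_gen`;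
`minpoly.algHom_eq`. -/

open NumberField

namespace BMS

open BMF Pool.Agent.Lib.MP_a325a5_ag.UL

private theorem hbd2_prod {F : Type} [Field F] [NumberField F] (c : Fin 3 → Fˣ) (a : Fin 3 → ℤ)
    (v : Pl F) : lg v ((∏ j, c j ^ a j : Fˣ) : F) = ∑ j, (a j : ℝ) * lg v (c j : F) := by
  simp only [Fin.prod_univ_three, Units.val_mul, Units.val_zpow_eq_zpow_val]
  rw [lg_mul v (mul_ne_zero (zpow_ne_zero _ (c 0).ne_zero) (zpow_ne_zero _ (c 1).ne_zero))
    (zpow_ne_zero _ (c 2).ne_zero), lg_mul v (zpow_ne_zero _ (c 0).ne_zero)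
    (zpow_ne_zero _ (c 1).ne_zero), lg_zpow, lg_zpow, lg_zpow, Fin.sum_univ_three]

private theorem hbd2_W {F : Type} [Field F] [NumberField F] (c : Fin 3 → Fˣ) (r : Fin 3 → ℤ)
    (hrel : ∏ j, c j ^ r j = 1) (z : Fˣ) (N : ℕ) (hN : 0 < N) (a : Fin 3 → ℤ)
    (h : z ^ N = ∏ j, c j ^ a j) (v : Pl F) :
    lg v (z : F) = ∑ j, Wv r N a j * lg v (c j : F) := by
  refine Wv_eq r N hN a (fun j => lg v (c j : F)) _ ?_ ?_
  · rw [← hbd2_prod c r v, hrel, Units.val_one, lg_one]
  · rw [← hbd2_prod c a v, ← h, Units.val_pow_eq_pow_val, lg_pow]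

theorem hbd2 {L : Type} [Field L] [NumberField L] (α γ : Fin 3 → L)
    (hα : Function.Injective α) (hγ : ∀ j, γ j ≠ 0) (τ : L →+* ℂ)
    (hNA : ∀ d : Fin 3 → ℝ, d ≠ 0 → (ray (fun j => τ (γ j)) (fun j => τ (α j)) d).Finite)
    (n : ℕ) (f : Fin (n + 1) → Polynomial L) :
    ∃ B : ℝ, ∃ D₁ : ℕ, ∀ (K : Type) [Field K] [NumberField K] [Algebra L K]
      (t : K) (c : Fin 3 → Kˣ) (z : Fin (n + 1) → Kˣ),
      (∀ j, (c j : K) = algebraMap L K (γ j) * (t - algebraMap L K (α j))) →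
      NVS (fun i => Polynomial.aeval t (f i) * (z i : K)) → mr (Sum.elim c z) ≤ 2 →
      (∃ a : Fin 3 → ℤ, a ≠ 0 ∧ ∏ j, c j ^ a j = 1) ∧ ht t ≤ B ∧
        ((∀ i, ht ((z i : K) / z 0) ≤ B) ∨ (minpoly L t).natDegree ≤ D₁ ∨
          ∃ a b : Fin 3 → ℤ, LinearIndependent ℤ ![a, b] ∧ ∏ j, c j ^ a j = 1 ∧
            ∏ j, c j ^ b j = 1) := by
  classical
  obtain ⟨C₁, -, h1⟩ := one_rel α γ hα hγ
  obtain ⟨H, hH0, hH⟩ := HClus_ht α γ C₁
  obtain ⟨Φ, hΦ, D₁, hD⟩ := clus_gen α γ hα hγ τ hNA n f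
  obtain ⟨R, hR1, hR⟩ := gap Φ hΦ ((n + 1) * (n + 1))
  refine ⟨max C₁ (3 * R * H), D₁, ?_⟩
  intro K _ _ _ t c z hc hnvs hmr
  obtain ⟨⟨r, hr, hrel⟩, hcase⟩ := cases_hull c z hmr
  have hne : ∀ j, t ≠ algebraMap L K (α j) := by
    intro j hj
    have h1 := hc j
    rw [hj, sub_self, mul_zero] at h1
    exact (c j).ne_zero h1
  have hrel' : ∏ j, (algebraMap L K (γ j) * (t - algebraMap L K (α j))) ^ r j = 1 := by
    have h5 := congrArg (fun u : Kˣ => (u : K)) hrel
    simp only [Units.coe_prod, Units.val_zpow_eq_zpow_val, Units.val_one] at h5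
    rw [← h5]
    exact Finset.prod_congr rfl fun j _ => by rw [hc j]
  have htt : ht t ≤ C₁ := h1 K t hne r hr hrel'
  refine ⟨⟨r, hr, hrel⟩, htt.trans (le_max_left _ _), ?_⟩
  rcases hcase with htwo | hz
  · exact Or.inr (Or.inr htwo)
  choose N hN a ha using hz
  set W : Fin (n + 1) → Fin 3 → ℝ := fun i => Wv r (N i) (a i) with hW
  obtain ⟨ρ, hρ1, hρR, hρ⟩ := hR
    ((Finset.univ : Finset (Fin (n + 1) × Fin (n + 1))).image fun p => ‖W p.1 - W p.2‖) (by
      refine Finset.card_image_le.trans ?_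
      rw [Finset.card_univ, Fintype.card_prod, Fintype.card_fin])
  have hgap : ∀ i j, ‖W i - W j‖ ≤ ρ ∨ Φ ρ < ‖W i - W j‖ := fun i j =>
    hρ _ (Finset.mem_image.2 ⟨(i, j), Finset.mem_univ _, rfl⟩)
  by_cases hall : ∀ i j, ‖W i - W j‖ ≤ ρ
  · left
    intro i
    have hcH : ∀ j, ht (c j : K) ≤ H := fun j => by
      rw [hc j]
      exact hH K t htt j
    have h2 := ht_of_lg (z i / z 0) c (W i - W 0) H hcH (by
      intro v
      rw [Units.val_div_eq_div_val, lg_div v (z i).ne_zero (z 0).ne_zero,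
        hbd2_W c r hrel (z i) (N i) (hN i) (a i) (ha i) v,
        hbd2_W c r hrel (z 0) (N 0) (hN 0) (a 0) (ha 0) v, ← Finset.sum_sub_distrib]
      exact Finset.sum_congr rfl fun j _ => by simp only [Pi.sub_apply, hW]; ring)
    rw [Units.val_div_eq_div_val] at h2
    refine h2.trans (le_trans ?_ (le_max_right _ _))
    exact mul_le_mul_of_nonneg_right
      (mul_le_mul_of_nonneg_left ((hall i 0).trans hρR) (by norm_num)) hH0
  · right
    left
    push Not at hall
    obtain ⟨F, iF, iNF, iA, iG, ⟨φ⟩⟩ := exists_galois L K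
    have hφ : Function.Injective φ := φ.toRingHom.injective
    have hcm : ∀ x : L, φ (algebraMap L K x) = algebraMap L F x := φ.commutes
    rw [← minpoly.algHom_eq φ hφ t]
    set m : Kˣ →* Fˣ := Units.map ((φ : K →+* F) : K →* F) with hm
    have hmv : ∀ x : Kˣ, ((m x : Fˣ) : F) = φ x := fun x => rfl
    have hrelF : ∏ j, (m (c j)) ^ r j = 1 := by
      have h2 := congrArg m hrel
      rw [map_prod, map_one] at h2
      rw [← h2]
      exact Finset.prod_congr rfl fun j _ => (map_zpow m _ _).symm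
    refine hD F (φ t) (fun j => m (c j)) (fun i => m (z i)) ?_ ?_ r hr hrelF W ?_ ?_ ρ hρ1 hgap
      hall
    · intro j
      rw [hmv, hc j, map_mul, map_sub, hcm, hcm]
    · have e1 : ∀ i, Polynomial.aeval (φ t) (f i) * ((m (z i) : Fˣ) : F) =
          φ (Polynomial.aeval t (f i) * (z i : K)) := by
        intro i
        rw [hmv, Polynomial.aeval_algHom_apply, map_mul]
      constructor
      · simp only [e1]
        rw [← map_sum, hnvs.1, map_zero]
      · intro I hI1 hI2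
        simp only [e1]
        rw [← map_sum]
        intro h0
        exact hnvs.2 I hI1 hI2 (hφ (by rw [h0, map_zero]))
    · exact fun i => Wv_perp r hr (N i) (hN i) (a i)
    · intro v i
      refine hbd2_W (fun j => m (c j)) r hrelF (m (z i)) (N i) (hN i) (a i) ?_ v
      rw [← map_pow, ha i, map_prod]
      exact Finset.prod_congr rfl fun j _ => map_zpow m _ _

end BMS
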