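import Mathlib

/-! Completion of three independent integer vectors by unit vectors.

Proof.  Over `ℚ` the three vectors (cast to `ℚ`, still linearly independent:
`LinearIndependent.iff_fractionRing` or clearing denominators) and the unit vectors span; extend the
three vectors by unit vectors to a basis (exchange, `exists_linearIndepOn_id_extension` or
`Module.Basis.extend`); it has `n` elements, so `m = n - 3` unit vectors are used.  Multiply the
coordinates of a unit vector with a common denominator. -/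

namespace BMS

private theorem sbas_clear {ι : Type} [Fintype ι] (f : ι → ℚ) :
    ∃ N : ℕ, 0 < N ∧ ∃ g : ι → ℤ, ∀ i, (g i : ℚ) = (N : ℚ) * f i := by
  classical
  refine ⟨∏ i, (f i).den, Finset.prod_pos (fun i _ => (f i).den_pos), ?_⟩
  have h : ∀ i, ∃ z : ℤ, (z : ℚ) = ((∏ j, (f j).den : ℕ) : ℚ) * f i := by
    intro i
    obtain ⟨c, hc⟩ : (f i).den ∣ ∏ j, (f j).den := Finset.dvd_prod_of_mem _ (Finset.mem_univ i)
    refine ⟨(f i).num * c, ?_⟩
    rw [hc]
    push_cast
    have h1 : f i * ((f i).den : ℚ) = (f i).num := Rat.mul_den_eq_num _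
    rw [← h1]
    ring
  choose g hg using h
  exact ⟨g, hg⟩

theorem exists_compl {n : ℕ} (a : Fin 3 → Fin n → ℤ) (ha : LinearIndependent ℤ a) :
    ∃ (m : ℕ) (u : Fin m → Fin n → ℤ), n = m + 3 ∧ ∀ i : Fin n, ∃ N : ℕ, 0 < N ∧
      ∃ (x : Fin 3 → ℤ) (y : Fin m → ℤ), ∀ k : Fin n,
        (if k = i then (N : ℤ) else 0) = ∑ j, x j * a j k + ∑ l, y l * u l k := by
  classical
  -- the rational vectors
  let φ : (Fin n → ℤ) →ₗ[ℤ] (Fin n → ℚ) :=
    { toFun := fun v k => (v k : ℚ)
      map_add' := fun v w => by ext k; simp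
      map_smul' := fun c v => by ext k; simp }
  have hφ : LinearMap.ker φ = ⊥ := by
    rw [LinearMap.ker_eq_bot']
    intro v hv
    ext k
    have h1 := congrFun hv k
    have h2 : (v k : ℚ) = 0 := h1
    exact_mod_cast h2
  have hb : LinearIndependent ℚ (fun j => φ (a j)) :=
    (LinearIndependent.iff_fractionRing ℤ ℚ).mp (ha.map' φ hφ)
  set b : Fin 3 → Fin n → ℚ := fun j => φ (a j) with hbdef
  have hbinj : Function.Injective b := hb.injective
  let E : Fin n → Fin n → ℚ := fun i => Pi.single i 1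
  obtain ⟨B, hBt, hSB, htB, hB⟩ := exists_linearIndepOn_id_extension
    (K := ℚ) (s := Set.range b) (t := Set.range b ∪ Set.range E) hb.linearIndepOn_id
    Set.subset_union_left
  have hspan : Submodule.span ℚ B = ⊤ := by
    rw [eq_top_iff, ← (Pi.basisFun ℚ (Fin n)).span_eq, Submodule.span_le]
    rintro v ⟨i, rfl⟩
    rw [Pi.basisFun_apply]
    exact htB (Or.inr ⟨i, rfl⟩)
  have hB' : LinearIndependent ℚ ((↑) : B → Fin n → ℚ) := hB
  have hfin : B.Finite := hB'.setFinite
  haveI : Fintype B := hfin.fintype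
  have hcard : Fintype.card B = n := by
    have h1 : ⊤ ≤ Submodule.span ℚ (Set.range ((↑) : B → Fin n → ℚ)) := by
      rw [Subtype.range_coe, hspan]
    have h2 := Module.finrank_eq_card_basis (Module.Basis.mk hB' h1)
    rw [Module.finrank_fin_fun] at h2
    exact h2.symm
  set C : Set (Fin n → ℚ) := B \ Set.range b with hC
  haveI : Fintype C := (hfin.subset Set.diff_subset).fintype
  have hcC : n = Fintype.card C + 3 := by
    have h1 : (Set.range b) ⊆ B := hSB
    have h2 : Fintype.card C + Fintype.card (Set.range b) = Fintype.card B := by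
      rw [← Nat.card_eq_fintype_card, ← Nat.card_eq_fintype_card, ← Nat.card_eq_fintype_card,
        Nat.card_coe_set_eq, Nat.card_coe_set_eq, Nat.card_coe_set_eq]
      exact Set.ncard_sdiff_add_ncard_of_subset h1 hfin
    rw [Set.card_range_of_injective hbinj, Fintype.card_fin, hcard] at h2
    exact h2.symm
  let e := (Fintype.equivFin C).symm
  have hE : ∀ c : C, ∃ i : Fin n, (c : Fin n → ℚ) = E i := by
    rintro ⟨c, hc⟩
    rcases hBt hc.1 with h1 | ⟨i, hi⟩
    · exact absurd h1 hc.2
    · exact ⟨i, hi.symm⟩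
  choose ix hix using hE
  refine ⟨Fintype.card C, fun l => Pi.single (ix (e l)) 1, hcC, fun i => ?_⟩
  have hmem : E i ∈ Submodule.span ℚ (Set.range b) ⊔ Submodule.span ℚ (Set.range (fun l => ((e l : C) : Fin n → ℚ))) := by
    rw [← Submodule.span_union]
    have h1 : Set.range b ∪ Set.range (fun l => ((e l : C) : Fin n → ℚ)) = B := by
      ext v
      constructor
      · rintro (h2 | ⟨l, rfl⟩)
        · exact hSB h2
        · exact (e l).2.1
      · intro h2
        by_cases h3 : v ∈ Set.range b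
        · exact Or.inl h3
        · right
          refine ⟨e.symm ⟨v, h2, h3⟩, ?_⟩
          simp
    rw [h1, hspan]
    trivial
  rw [Submodule.mem_sup] at hmem
  obtain ⟨v, hv, w, hw, hvw⟩ := hmem
  rw [Submodule.mem_span_range_iff_exists_fun] at hv hw
  obtain ⟨x, rfl⟩ := hv
  obtain ⟨y, rfl⟩ := hw
  obtain ⟨N, hN, g, hg⟩ := sbas_clear (Sum.elim x y)
  refine ⟨N, hN, fun j => g (Sum.inl j), fun l => g (Sum.inr l), fun k => ?_⟩
  have h1 := congrFun hvw k
  have h2 : (N : ℚ) * (∑ j, x j * (a j k : ℚ) + ∑ l, y l * (Pi.single (ix (e l)) (1 : ℚ) : Fin n → ℚ) k) =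
      if k = i then (N : ℚ) else 0 := by
    have h3 : ∑ j, x j * (a j k : ℚ) + ∑ l, y l * (Pi.single (ix (e l)) (1 : ℚ) : Fin n → ℚ) k = E i k := by
      rw [← h1]
      simp only [Pi.add_apply, Finset.sum_apply, Pi.smul_apply, smul_eq_mul]
      congr 1
      apply Finset.sum_congr rfl
      intro l _
      rw [hix (e l)]
    rw [h3]
    by_cases h4 : k = i
    · subst h4
      simp [E]
    · simp [E, h4]
  have h5 : ((if k = i then (N : ℤ) else 0 : ℤ) : ℚ) = ((∑ j, g (Sum.inl j) * a j k +
      ∑ l, g (Sum.inr l) * (Pi.single (ix (e l)) (1 : ℤ) : Fin n → ℤ) k : ℤ) : ℚ) := by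
    push_cast
    have h6 : (if k = i then (N : ℚ) else 0) = (N : ℚ) * (∑ j, x j * (a j k : ℚ) +
        ∑ l, y l * (Pi.single (ix (e l)) (1 : ℚ) : Fin n → ℚ) k) := h2.symm
    rw [h6, mul_add, Finset.mul_sum, Finset.mul_sum]
    congr 1
    · apply Finset.sum_congr rfl
      intro j _
      rw [hg (Sum.inl j), Sum.elim_inl]
      ring
    · apply Finset.sum_congr rfl
      intro l _
      rw [hg (Sum.inr l), Sum.elim_inr]
      have h7 : ((Pi.single (ix (e l)) (1 : ℤ) : Fin n → ℤ) k : ℚ) = (Pi.single (ix (e l)) (1 : ℚ) : Fin n → ℚ) k := by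
        by_cases h8 : k = ix (e l)
        · rw [h8]
          simp
        · simp [h8]
      rw [h7]
      ring
  exact_mod_cast h5

end BMS
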