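import Pool.Agent.Lib.MP_a325a5_ag.UL.MonA

/-! Polynomials in Laurent monomials: clearing denominators.

Proof: copy of the private lemmas `mon_exp`, `monClear`, `monClear_aeval` of `UL/MonA.lean` (with all
constants `c j = 1`), and the choice of `N` in `locus_monomial_le` there. -/

namespace BMS

open MvPolynomial

/-- the total exponent -/
private def sclE {ι κ : Type} [Fintype κ] (A : κ → ι → ℤ) (d : κ →₀ ℕ) (i : ι) : ℤ :=
  ∑ j, (d j : ℤ) * A j i

private theorem scl_exp {ι κ : Type} [Fintype ι] [Fintype κ] {M : Type} [CommGroup M] (t : ι → M)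
    (A : κ → ι → ℤ) (d : κ →₀ ℕ) (N : ℕ) (hN : ∀ i, 0 ≤ (N : ℤ) + sclE A d i) :
    (∏ i, t i) ^ N * ∏ j, (∏ i, t i ^ A j i) ^ d j = ∏ i, t i ^ ((N : ℤ) + sclE A d i).toNat := by
  have e2 : ∏ j, (∏ i, t i ^ A j i) ^ d j = ∏ i, t i ^ sclE A d i := by
    have e3 : ∀ i, t i ^ sclE A d i = ∏ j, t i ^ ((d j : ℤ) * A j i) := by
      intro i
      unfold sclE
      induction (Finset.univ : Finset κ) using Finset.cons_induction with
      | empty => simp
      | cons x s hx ih => rw [Finset.sum_cons, Finset.prod_cons, zpow_add, ih]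
    simp_rw [e3]
    rw [Finset.prod_comm]
    refine Finset.prod_congr rfl fun j _ => ?_
    rw [← Finset.prod_pow]
    refine Finset.prod_congr rfl fun i _ => ?_
    rw [mul_comm, zpow_mul, zpow_natCast]
  rw [e2, ← Finset.prod_pow, ← Finset.prod_mul_distrib]
  refine Finset.prod_congr rfl fun i _ => ?_
  rw [← zpow_natCast, ← zpow_natCast, ← zpow_add, Int.toNat_of_nonneg (hN i)]

theorem exists_clear {K : Type} [Field K] {ι κ : Type} [Fintype ι] [Fintype κ] (A : κ → ι → ℤ)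
    (f : MvPolynomial κ K) :
    ∃ (P : MvPolynomial ι K) (N : ℕ), ∀ (L : Type) [Field L] [Algebra K L] (t : ι → Lˣ),
      aeval (fun i => (t i : L)) P =
        (∏ i, (t i : L)) ^ N * aeval (fun j => ((∏ i, t i ^ A j i : Lˣ) : L)) f := by
  obtain ⟨N, hN⟩ : ∃ N : ℕ, ∀ d ∈ f.support, ∀ i, 0 ≤ (N : ℤ) + sclE A d i := by
    refine ⟨∑ d ∈ f.support, ∑ i, (sclE A d i).natAbs, fun d hd i => ?_⟩
    have h1 : (sclE A d i).natAbs ≤ ∑ i, (sclE A d i).natAbs :=
      Finset.single_le_sum (f := fun i => (sclE A d i).natAbs) (fun _ _ => Nat.zero_le _)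
        (Finset.mem_univ i)
    have h2 : ∑ i, (sclE A d i).natAbs ≤ ∑ d ∈ f.support, ∑ i, (sclE A d i).natAbs :=
      Finset.single_le_sum (f := fun d => ∑ i, (sclE A d i).natAbs) (fun _ _ => Nat.zero_le _) hd
    have h3 : ((sclE A d i).natAbs : ℤ) ≤
        ((∑ d ∈ f.support, ∑ i, (sclE A d i).natAbs : ℕ) : ℤ) := by exact_mod_cast h1.trans h2
    omega
  refine ⟨∑ d ∈ f.support, C (f.coeff d) * ∏ i, X i ^ ((N : ℤ) + sclE A d i).toNat, N,
    fun L _ _ t => ?_⟩
  rw [map_sum, MvPolynomial.aeval_def (R := K) (S₁ := L), MvPolynomial.eval₂_eq', Finset.mul_sum]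
  refine Finset.sum_congr rfl fun d hd => ?_
  have h1 := congrArg (fun u : Lˣ => (u : L)) (scl_exp t A d N (hN d hd))
  simp only [Units.val_mul, Units.val_pow_eq_pow_val, Units.coe_prod] at h1
  rw [map_mul, aeval_C, map_prod]
  simp only [map_pow, aeval_X, Units.coe_prod]
  rw [← h1]
  ring

end BMS
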