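import Pool.Agent.Lib.MP_a325a5_ag.UL.MRloc

/-! The case of a constant point of the line.

Proof.  `S` is not empty (`vanIdeal ∅ = ⊤`, `locus ℂ p` is prime).  Let `s ∈ S`.  The polynomials
`X (inl j) - C (c j)` are in `locus ℂ p ≤ locus ℂ s`, so `s (inl j) = c j`, and
`mr (fun j => p (inl j)) = mr (cst c) = mr c` (`mr_cst`).  `mr c ≤ mr s` (`mr_le_of_pow_mem`), and
`mr p ≤ mr (fun j => p (inl j)) + m` (`mr_sumElim_le`).  So `mr p ≤ mr s + td ℂ p`. -/

namespace BMS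

open Pool.Agent.Lib.MP_a325a5_ag.UL MvPolynomial

theorem const_case {m : ℕ} (S : Set (Fin 3 ⊕ Fin m → ℂˣ)) {L : Type} [Field L] [Algebra ℂ L]
    (p : Fin 3 ⊕ Fin m → Lˣ) (h1 : vanIdeal S ≤ locus ℂ p) (h2 : ∀ s ∈ S, locus ℂ p ≤ locus ℂ s)
    (htd : m ≤ td ℂ p) (hrk : ∀ s ∈ S, mr s + td ℂ p < mr p) (c : Fin 3 → ℂˣ)
    (hc : ∀ j, (p (.inl j) : L) = algebraMap ℂ L (c j)) : False := by
  have hne : S.Nonempty := by
    rw [Set.nonempty_iff_ne_empty]
    intro h0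
    rw [h0] at h1
    have h3 : (1 : MvPolynomial (Fin 3 ⊕ Fin m) ℂ) ∈ vanIdeal (∅ : Set (Fin 3 ⊕ Fin m → ℂˣ)) := by
      rw [mem_vanIdeal]
      intro z hz
      exact absurd hz (Set.notMem_empty z)
    have h4 := mem_locus.mp (h1 h3)
    rw [map_one] at h4
    exact one_ne_zero h4
  obtain ⟨s, hs⟩ := hne
  have h3 : ∀ j, s (.inl j) = c j := by
    intro j
    have h4 : (X (.inl j) - C (c j : ℂ) : MvPolynomial (Fin 3 ⊕ Fin m) ℂ) ∈ locus ℂ p := by
      rw [mem_locus, map_sub, aeval_X, aeval_C, hc j, sub_self]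
    have h5 := mem_locus.mp (h2 s hs h4)
    rw [map_sub, aeval_X, aeval_C] at h5
    exact Units.ext (sub_eq_zero.mp h5)
  have h4 : mr c ≤ mr s := by
    refine mr_le_of_pow_mem s c fun j => ⟨1, one_pos, ?_⟩
    rw [pow_one, ← h3 j]
    exact Subgroup.subset_closure ⟨_, rfl⟩
  have h5 : (fun j => p (.inl j)) = fun j => cst ℂ L (c j) := by
    funext j
    exact Units.ext (hc j)
  have h6 : mr (fun j : Fin 3 => p (.inl j)) = mr c := by
    rw [h5, mr_cst]
  have h7 := mr_sumElim_le (fun j : Fin 3 => p (.inl j)) (fun j : Fin m => p (.inr j))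
  have h8 : Sum.elim (fun j : Fin 3 => p (.inl j)) (fun j : Fin m => p (.inr j)) = p := by
    funext i
    rcases i with i | i <;> rfl
  rw [h8, Fintype.card_fin, h6] at h7
  have h9 := hrk s hs
  omega

end BMS
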