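import Pool.Agent.Lib.MP_a325a5_ag.UL.MRloc

/-! Removing finitely many values of the parameter.

Proof.  Let `f` vanish on the smaller set.  With the polynomial
`Q = C (g 0)⁻¹ * X (inl 0) + C (b 0)` (its value at `s ∈ S` is the parameter `t` of `s`, as
`s (inl 0) = g 0 * (t - b 0)`) the product `f * ∏ t₀ ∈ T₁, (Q - C t₀)` vanishes on `S`, so at `p`; the
value of `Q - C t₀` at `p` is `T - t₀ ≠ 0`. -/

namespace BMS

open Pool.Agent.Lib.MP_a325a5_ag.UL MvPolynomial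

theorem dens_sub {m : ℕ} (g b : Fin 3 → ℂ) (hg : ∀ j, g j ≠ 0) (S : Set (Fin 3 ⊕ Fin m → ℂˣ))
    {L : Type} [Field L] [Algebra ℂ L] (p : Fin 3 ⊕ Fin m → Lˣ) (h1 : vanIdeal S ≤ locus ℂ p)
    (T₁ : Set ℂ) (hT₁ : T₁.Finite) (T : L)
    (hT : ∀ j, (p (.inl j) : L) = algebraMap ℂ L (g j) * (T - algebraMap ℂ L (b j)))
    (hTt : ∀ t : ℂ, T ≠ algebraMap ℂ L t) :
    vanIdeal {s | s ∈ S ∧ ∀ t ∈ T₁, (s (.inl 0) : ℂ) ≠ g 0 * (t - b 0)} ≤ locus ℂ p := by
  classical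
  intro f hf
  have hg0 := hg 0
  set Q : ℂ → MvPolynomial (Fin 3 ⊕ Fin m) ℂ := fun t₀ =>
    C (g 0)⁻¹ * X (Sum.inl 0) + C (b 0) - C t₀ with hQ
  set P : MvPolynomial (Fin 3 ⊕ Fin m) ℂ := ∏ t₀ ∈ hT₁.toFinset, Q t₀ with hP
  have hmem : f * P ∈ vanIdeal S := by
    intro s hs
    rw [map_mul]
    by_cases h : ∀ t ∈ T₁, (s (.inl 0) : ℂ) ≠ g 0 * (t - b 0)
    · have h2 := hf s ⟨hs, h⟩
      rw [h2, zero_mul]
    · push Not at h
      obtain ⟨t, ht, hst⟩ := h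
      have h3 : eval (fun i => (s i : ℂ)) P = 0 := by
        rw [hP, map_prod]
        apply Finset.prod_eq_zero (hT₁.mem_toFinset.mpr ht)
        simp only [hQ, map_sub, map_add, map_mul, eval_C, eval_X]
        rw [hst]
        field_simp
        ring
      rw [h3, mul_zero]
  have h4 : aeval (fun i => (p i : L)) (f * P) = 0 := h1 hmem
  rw [map_mul] at h4
  have h5 : aeval (fun i => (p i : L)) P ≠ 0 := by
    rw [hP, map_prod]
    apply Finset.prod_ne_zero_iff.mpr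
    intro t₀ _
    have e : aeval (fun i => (p i : L)) (Q t₀) = T - algebraMap ℂ L t₀ := by
      simp only [hQ, map_sub, map_add, map_mul, aeval_X, algHom_C]
      rw [hT 0, ← mul_assoc, ← map_mul, inv_mul_cancel₀ hg0, map_one]
      ring
    rw [e]
    exact sub_ne_zero.mpr (hTt t₀)
  exact (mul_eq_zero.mp h4).resolve_right h5

end BMS
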