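import Pool.Agent.Lib.MP_a325a5_ag.UL.TDloc

/-! A relation over the algebraic numbers.

Proof.  The `m + 1` elements `T`, `p (inr l)` are algebraically dependent over `ℂ` (`le_td`: `td ℂ p ≤ m`;
they are in the field of the coordinates of `p`): `aeval w F = 0` for some
`F ∈ ℂ[Option (Fin m)]`, `F ≠ 0`, where `w none = T`, `w (some l) = p (inr l)`.  Consider `ℂ` as a vector
space over `Qbar` (by `φ`), let `ω` be a basis (or a basis of the span of the coefficients), and
`F = ∑ ω b • map φ (F b)`.  Substituting the polynomial `C (g 0)⁻¹ * X (inl 0) + C (b 0)` for the variable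
`none` and `X (inr l)` for `some l` gives a polynomial in the locus of `p`, so (`h2`) `F` vanishes at
the point `(t, s (inr l))` of every `s ∈ S`; there the values of the `map φ (F b)` are in the range of
`φ` (`hS`), so `F b` vanishes at the points of `S`, so (`h1`) at `p`.  Some `F b ≠ 0`. -/

namespace BMS

open Pool.Agent.Lib.MP_a325a5_ag.UL MvPolynomial

private theorem sdep_fun {k K : Type} [Field k] [Field K] (φ : k →+* K) (c : K) (hc : c ≠ 0) :
    ∃ l : K →+ k, (∀ a x, l (φ a * x) = a * l x) ∧ l c ≠ 0 := by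
  let _ := φ.toAlgebra
  have h : ¬ ∀ l : Module.Dual k K, l c = 0 := by
    rw [Module.forall_dual_apply_eq_zero_iff]
    exact hc
  push Not at h
  obtain ⟨l, hl⟩ := h
  exact ⟨l.toAddMonoidHom, fun a x => l.map_smul a x, hl⟩

private noncomputable def sdepSub {m : ℕ} (c d : ℂ) : Option (Fin m) → MvPolynomial (Fin 3 ⊕ Fin m) ℂ :=
  fun o => Option.elim o (C c * X (.inl 0) + C d) fun l => X (.inr l)

private theorem sdep_aeval {m : ℕ} {A : Type} [Field A] [Algebra ℂ A] (c d : ℂ) (x : Fin 3 ⊕ Fin m → A)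
    (G : MvPolynomial (Option (Fin m)) ℂ) :
    aeval x (bind₁ (sdepSub c d) G) =
      aeval (fun o => Option.elim o (algebraMap ℂ A c * x (.inl 0) + algebraMap ℂ A d)
        fun l => x (.inr l)) G := by
  rw [aeval_bind₁]
  congr 2
  funext o
  rcases o with _ | l
  · simp [sdepSub]
  · simp [sdepSub]

theorem dep_qbar {m : ℕ} (α γ : Fin 3 → AlgebraicClosure ℚ) (hγ : ∀ j, γ j ≠ 0)
    (φ : AlgebraicClosure ℚ →+* ℂ) (S : Set (Fin 3 ⊕ Fin m → ℂˣ))
    {L : Type} [Field L] [Algebra ℂ L] (p : Fin 3 ⊕ Fin m → Lˣ) (h1 : vanIdeal S ≤ locus ℂ p)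
    (h2 : ∀ s ∈ S, locus ℂ p ≤ locus ℂ s) (htd : td ℂ p ≤ m) (T : L)
    (hT : ∀ j, (p (.inl j) : L) = algebraMap ℂ L (φ (γ j)) * (T - algebraMap ℂ L (φ (α j))))
    (hS : ∀ s ∈ S, ∀ i, ∃ x : AlgebraicClosure ℚ, φ x = (s i : ℂ)) :
    ∃ F : MvPolynomial (Option (Fin m)) (AlgebraicClosure ℚ), F ≠ 0 ∧
      eval₂ ((algebraMap ℂ L).comp φ) (fun o => Option.elim o T fun l => (p (.inr l) : L)) F = 0 := by
  classical
  have hγ0 : φ (γ 0) ≠ 0 := by
    rw [Ne, map_eq_zero_iff _ φ.injective]
    exact hγ 0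
  have hLγ : algebraMap ℂ L (φ (γ 0)) ≠ 0 := by
    rw [Ne, map_eq_zero_iff _ (algebraMap ℂ L).injective]
    exact hγ0
  set w : Option (Fin m) → L := fun o => Option.elim o T fun l => (p (.inr l) : L) with hw
  have hTeq : T = algebraMap ℂ L (φ (γ 0))⁻¹ * (p (.inl 0) : L) + algebraMap ℂ L (φ (α 0)) := by
    rw [hT 0, map_inv₀, inv_mul_cancel_left₀ hLγ]
    ring
  have hsub : ∀ G : MvPolynomial (Option (Fin m)) ℂ,
      aeval (fun i => (p i : L)) (bind₁ (sdepSub (φ (γ 0))⁻¹ (φ (α 0))) G) = aeval w G := by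
    intro G
    rw [sdep_aeval, ← hTeq]
  -- dependence over the complex numbers
  have hdep : ¬ AlgebraicIndependent ℂ w := by
    intro hind
    have h3 := le_td (K := ℂ) p w hind (by
      intro o
      have hmem : w o ∈ Algebra.adjoin ℂ (Set.range fun i => (p i : L)) := ?_
      · exact isAlgebraic_algebraMap
          (⟨w o, hmem⟩ : Algebra.adjoin ℂ (Set.range fun i => (p i : L)))
      rcases o with _ | l
      · show T ∈ _
        rw [hTeq]
        refine Subalgebra.add_mem _ (Subalgebra.mul_mem _ (Subalgebra.algebraMap_mem _ _)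
          (Algebra.subset_adjoin ⟨.inl 0, rfl⟩)) (Subalgebra.algebraMap_mem _ _)
      · exact Algebra.subset_adjoin ⟨.inr l, rfl⟩)
    rw [Fintype.card_option, Fintype.card_fin] at h3
    omega
  rw [algebraicIndependent_iff] at hdep
  push Not at hdep
  obtain ⟨F0, hF0, hF0ne⟩ := hdep
  obtain ⟨e0, he0⟩ := MvPolynomial.ne_zero_iff.mp hF0ne
  obtain ⟨l, hl, hlc⟩ := sdep_fun φ (coeff e0 F0) he0
  set F : MvPolynomial (Option (Fin m)) (AlgebraicClosure ℚ) :=
    ∑ e ∈ F0.support, monomial e (l (coeff e F0)) with hF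
  refine ⟨F, ?_, ?_⟩
  · intro hzero
    have h3 : coeff e0 F = l (coeff e0 F0) := by
      rw [hF, coeff_sum, Finset.sum_eq_single e0]
      · rw [coeff_monomial, if_pos rfl]
      · intro e _ hne
        rw [coeff_monomial, if_neg hne]
      · intro h
        exact absurd (mem_support_iff.mpr he0) h
    rw [hzero, coeff_zero] at h3
    exact hlc h3.symm
  · have hmem : bind₁ (sdepSub (φ (γ 0))⁻¹ (φ (α 0))) (map φ F) ∈ vanIdeal S := by
      rw [mem_vanIdeal]
      intro s hs
      choose x hx using hS s hs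
      have h3 : ∀ G : MvPolynomial (Option (Fin m)) ℂ,
          eval (fun i => (s i : ℂ)) (bind₁ (sdepSub (φ (γ 0))⁻¹ (φ (α 0))) G) =
            eval (fun o => φ (Option.elim o ((γ 0)⁻¹ * x (.inl 0) + α 0) fun l => x (.inr l))) G := by
        intro G
        rw [← MvPolynomial.coe_aeval_eq_eval, ← MvPolynomial.coe_aeval_eq_eval]
        show aeval (fun i => (s i : ℂ)) _ = aeval _ _
        rw [sdep_aeval]
        congr 2
        funext o
        rcases o with _ | l
        · simp [hx]
        · simp [hx]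
      have h4 : eval (fun i => (s i : ℂ)) (bind₁ (sdepSub (φ (γ 0))⁻¹ (φ (α 0))) F0) = 0 := by
        apply mem_locus_self.mp
        apply h2 s hs
        rw [mem_locus, hsub]
        exact hF0
      rw [h3] at h4
      rw [h3, eval_map]
      set y : Option (Fin m) → AlgebraicClosure ℚ :=
        fun o => Option.elim o ((γ 0)⁻¹ * x (.inl 0) + α 0) fun l => x (.inr l) with hy
      have h5 : eval y F = 0 := by
        rw [MvPolynomial.eval_eq'] at h4
        have h6 := congrArg l h4
        rw [map_zero, map_sum] at h6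
        rw [← h6, hF, map_sum]
        refine Finset.sum_congr rfl fun e _ => ?_
        rw [eval_monomial, Finsupp.prod_fintype _ _ (fun i => pow_zero _), mul_comm (coeff e F0)]
        have h7 : ∏ i, φ (y i) ^ e i = φ (∏ i, y i ^ e i) := by
          rw [map_prod]
          refine Finset.prod_congr rfl fun i _ => ?_
          rw [map_pow]
        rw [h7, hl, mul_comm]
      have h8 := eval₂_comp_left φ (RingHom.id _) y F
      rw [RingHom.comp_id] at h8
      have h9 : eval₂ (RingHom.id _) y F = eval y F := rfl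
      rw [h9, h5, map_zero] at h8
      exact h8.symm
    have h10 := h1 hmem
    rw [mem_locus, hsub] at h10
    have h11 : aeval w (map φ F) = eval₂ ((algebraMap ℂ L).comp φ) w F := by
      rw [aeval_def, eval₂_map]
    rw [← h11]
    exact h10

end BMS
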