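import Pool.Agent.Lib.MP_a325a5_ag.UL.MRloc

/-! The polynomials used in the core.

Proof.  `aeval_term`: the value of `tpol` at `x` is `T`.  `aeval_bin`: cancel the factor
`∏ x (inl j) ^ (-k j).toNat`.  `bin_gen`: otherwise, with `w` the image of `η`, of finite order `N`, the
`N`-th power of `∏ x (inr l) ^ (e l - e' l) * ∏ x (inl j) ^ (-k j) = w` is a relation with exponents
`N * (-k j)`, `N * (e l - e' l)`, not all zero; but `mr p` is the number of coordinates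
(`mr_eq_card_iff`).  `exists_avoid`: the product of the elements of `P` is not in `locus ℂ p` (prime), so
it is not in `vanIdeal S`. -/

namespace BMS

open Pool.Agent.Lib.MP_a325a5_ag.UL MvPolynomial

/-- the parameter of the line as a polynomial in the coordinates -/
noncomputable def tpol {m : ℕ} (g b : Fin 3 → ℂ) : MvPolynomial (Fin 3 ⊕ Fin m) ℂ :=
  C (g 0)⁻¹ * X (.inl 0) + C (b 0)

/-- a term of the equation -/
noncomputable def pterm {m : ℕ} (g b : Fin 3 → ℂ) {k : Type} [Field k] (φ : k →+* ℂ)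
    (f : Polynomial k) (e : Fin m → ℕ) : MvPolynomial (Fin 3 ⊕ Fin m) ℂ :=
  f.eval₂ ((C : ℂ →+* MvPolynomial (Fin 3 ⊕ Fin m) ℂ).comp φ) (tpol g b) *
    ∏ l, X (.inr l) ^ e l

/-- a binomial -/
noncomputable def pbin {m : ℕ} (e e' : Fin m → ℕ) (η : ℂ) (k : Fin 3 → ℤ) :
    MvPolynomial (Fin 3 ⊕ Fin m) ℂ :=
  (∏ l, X (.inr l) ^ e l) * ∏ j, X (.inl j) ^ (-k j).toNat -
    C η * ((∏ l, X (.inr l) ^ e' l) * ∏ j, X (.inl j) ^ (k j).toNat)

theorem aeval_tpol {m : ℕ} (g b : Fin 3 → ℂ) (hg : g 0 ≠ 0) {A : Type} [Field A] [Algebra ℂ A]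
    (x : Fin 3 ⊕ Fin m → Aˣ) (T : A)
    (hx : (x (.inl 0) : A) = algebraMap ℂ A (g 0) * (T - algebraMap ℂ A (b 0))) :
    aeval (fun i => (x i : A)) (tpol g b : MvPolynomial (Fin 3 ⊕ Fin m) ℂ) = T := by
  have h0 : algebraMap ℂ A (g 0) ≠ 0 := by
    rw [Ne, map_eq_zero_iff _ (algebraMap ℂ A).injective]
    exact hg
  unfold tpol
  rw [map_add, map_mul, aeval_X, algHom_C, algHom_C, hx, map_inv₀, inv_mul_cancel_left₀ h0]
  ring

theorem aeval_term {m : ℕ} (g b : Fin 3 → ℂ) (hg : g 0 ≠ 0) {k : Type} [Field k] (φ : k →+* ℂ)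
    (f : Polynomial k) (e : Fin m → ℕ) {A : Type} [Field A] [Algebra ℂ A]
    (x : Fin 3 ⊕ Fin m → Aˣ) (T : A)
    (hx : (x (.inl 0) : A) = algebraMap ℂ A (g 0) * (T - algebraMap ℂ A (b 0))) :
    aeval (fun i => (x i : A)) (pterm g b φ f e) =
      f.eval₂ ((algebraMap ℂ A).comp φ) T * ∏ l, (x (.inr l) : A) ^ e l := by
  unfold pterm
  rw [map_mul, map_prod]
  have h1 : (aeval (fun i => (x i : A)) : MvPolynomial (Fin 3 ⊕ Fin m) ℂ →ₐ[ℂ] A)
      (f.eval₂ ((C : ℂ →+* MvPolynomial (Fin 3 ⊕ Fin m) ℂ).comp φ) (tpol g b)) =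
      f.eval₂ ((algebraMap ℂ A).comp φ) T := by
    have h2 := Polynomial.hom_eval₂ f ((C : ℂ →+* MvPolynomial (Fin 3 ⊕ Fin m) ℂ).comp φ)
      ((aeval (fun i => (x i : A)) : MvPolynomial (Fin 3 ⊕ Fin m) ℂ →ₐ[ℂ] A) :
        MvPolynomial (Fin 3 ⊕ Fin m) ℂ →+* A) (tpol g b)
    have h3 : ((aeval (fun i => (x i : A)) : MvPolynomial (Fin 3 ⊕ Fin m) ℂ →ₐ[ℂ] A) :
        MvPolynomial (Fin 3 ⊕ Fin m) ℂ →+* A).comp
          ((C : ℂ →+* MvPolynomial (Fin 3 ⊕ Fin m) ℂ).comp φ) = (algebraMap ℂ A).comp φ := by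
      ext c
      simp
    rw [h3] at h2
    rw [RingHom.coe_coe, aeval_tpol g b hg x T hx] at h2
    exact h2
  rw [h1]
  congr 1
  refine Finset.prod_congr rfl fun l _ => ?_
  rw [map_pow, aeval_X]

private theorem sfun_split {A : Type} [Field A] (x : Fin 3 → Aˣ) (k : Fin 3 → ℤ) :
    ∏ j, x j ^ k j = (∏ j, x j ^ (k j).toNat) / ∏ j, x j ^ (-k j).toNat := by
  rw [← Finset.prod_div_distrib]
  refine Finset.prod_congr rfl fun i _ => ?_
  rw [← zpow_natCast, ← zpow_natCast, div_eq_mul_inv, ← zpow_sub]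
  congr 1
  omega

theorem aeval_bin {m : ℕ} (e e' : Fin m → ℕ) (η : ℂˣ) (k : Fin 3 → ℤ) {A : Type} [Field A]
    [Algebra ℂ A] (x : Fin 3 ⊕ Fin m → Aˣ) :
    aeval (fun i => (x i : A)) (pbin e e' (η : ℂ) k) = 0 ↔
      ∏ l, x (.inr l) ^ e l =
        (∏ l, x (.inr l) ^ e' l) * cst ℂ A η * ∏ j, x (.inl j) ^ k j := by
  have h1 : aeval (fun i => (x i : A)) (pbin e e' (η : ℂ) k) =
      (((∏ l, x (.inr l) ^ e l) * ∏ j, x (.inl j) ^ (-k j).toNat : Aˣ) : A) -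
        ((cst ℂ A η * ((∏ l, x (.inr l) ^ e' l) * ∏ j, x (.inl j) ^ (k j).toNat) : Aˣ) : A) := by
    unfold pbin
    rw [map_sub, map_mul, map_mul, map_mul, map_prod, map_prod, map_prod, map_prod, algHom_C]
    simp only [map_pow, aeval_X, Units.val_mul, Units.coe_prod, Units.val_pow_eq_pow_val, cst_val]
  rw [h1, sub_eq_zero, Units.val_inj, sfun_split (fun j => x (.inl j)) k, ← mul_div_assoc,
    eq_div_iff_mul_eq']
  constructor
  · intro h
    rw [h]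
    exact (mul_left_comm _ _ _).trans (mul_assoc _ _ _).symm
  · intro h
    rw [h]
    exact (mul_assoc _ _ _).trans (mul_left_comm _ _ _)

theorem bin_gen {m : ℕ} (e e' : Fin m → ℕ) (he : e ≠ e') (η : ℂˣ) (hη : IsOfFinOrder η)
    (k : Fin 3 → ℤ) {L : Type} [Field L] [Algebra ℂ L] (p : Fin 3 ⊕ Fin m → Lˣ)
    (hp : mr p = m + 3) : pbin e e' (η : ℂ) k ∉ locus ℂ p := by
  intro hmem
  rw [mem_locus, aeval_bin] at hmem
  obtain ⟨N, hN, hηN⟩ := isOfFinOrder_iff_pow_eq_one.mp hη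
  have hcard : mr p = Fintype.card (Fin 3 ⊕ Fin m) := by
    rw [hp, Fintype.card_sum, Fintype.card_fin, Fintype.card_fin, add_comm]
  have hind := (mr_eq_card_iff p).mp hcard
  have h1 : ∏ i, p i ^ (Sum.elim (fun j => -k j) (fun l => (e l : ℤ) - e' l) i) =
      cst ℂ L η := by
    rw [Fintype.prod_sum_type]
    simp only [Sum.elim_inl, Sum.elim_inr]
    have h2 : ∏ l, p (.inr l) ^ ((e l : ℤ) - e' l) =
        (∏ l, p (.inr l) ^ e l) / ∏ l, p (.inr l) ^ e' l := by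
      rw [← Finset.prod_div_distrib]
      refine Finset.prod_congr rfl fun l _ => ?_
      rw [zpow_sub, zpow_natCast, zpow_natCast, div_eq_mul_inv]
    have h3 : ∏ j, p (.inl j) ^ (-k j) = (∏ j, p (.inl j) ^ k j)⁻¹ := by
      rw [← Finset.prod_inv_distrib]
      refine Finset.prod_congr rfl fun l _ => ?_
      rw [zpow_neg]
    rw [h2, h3, hmem, mul_assoc, mul_div_cancel_left, mul_comm (cst ℂ L η), inv_mul_cancel_left]
  have h4 := hind (fun i => (Sum.elim (fun j => -k j) (fun l => (e l : ℤ) - e' l) i) * N) (by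
    have h5 : ∏ i, p i ^ ((Sum.elim (fun j => -k j) (fun l => (e l : ℤ) - e' l) i) * N) =
        (∏ i, p i ^ (Sum.elim (fun j => -k j) (fun l => (e l : ℤ) - e' l) i)) ^ N := by
      rw [← Finset.prod_pow]
      refine Finset.prod_congr rfl fun i _ => ?_
      rw [zpow_mul, zpow_natCast]
    rw [h5, h1, ← map_pow, hηN, map_one])
  apply he
  funext l
  have h6 := congrFun h4 (.inr l)
  simp only [Sum.elim_inr, Pi.zero_apply, mul_eq_zero, Nat.cast_eq_zero] at h6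
  rcases h6 with h6 | h6
  · omega
  · omega

theorem exists_avoid {ι : Type} (S : Set (ι → ℂˣ)) {L : Type} [Field L] [Algebra ℂ L]
    (p : ι → Lˣ) (h1 : vanIdeal S ≤ locus ℂ p) (P : Set (MvPolynomial ι ℂ)) (hP : P.Finite)
    (h : ∀ f ∈ P, f ∉ locus ℂ p) : ∃ s ∈ S, ∀ f ∈ P, f ∉ locus ℂ s := by
  classical
  have h2 : (∏ f ∈ hP.toFinset, f) ∉ locus ℂ p := by
    intro hmem
    rw [mem_locus, map_prod, Finset.prod_eq_zero_iff] at hmem
    obtain ⟨f, hf, hf0⟩ := hmem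
    exact h f (hP.mem_toFinset.mp hf) (mem_locus.mpr hf0)
  have h3 : (∏ f ∈ hP.toFinset, f) ∉ vanIdeal S := fun h4 => h2 (h1 h4)
  rw [mem_vanIdeal] at h3
  push Not at h3
  obtain ⟨s, hs, hne⟩ := h3
  refine ⟨s, hs, fun f hf hmem => hne ?_⟩
  rw [map_prod]
  exact Finset.prod_eq_zero (hP.mem_toFinset.mpr hf) (mem_locus_self.mp hmem)

end BMS
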