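import Pool.Agent.Lib.MP_a325a5_ag.S.SDef

/-! A relation with the smallest number of monomials.

Proof.  Consider all finite sets `E` of exponents `e : Fin m → ℕ` and all `f : E → k[X]`, not all zero,
with `∑ e ∈ E, f e (T) * ∏ y ^ e = 0` (they exist: `F`, `MvPolynomial.optionEquivRight`, or collect the
monomials of `F` with the same exponents on `Fin m`); take one with `E` of minimal cardinality.  Then
all `f e ≠ 0`, a proper nonempty partial sum is not zero (it would be a smaller relation), and `E` has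
at least two elements: `f e (T) * ∏ y ^ e ≠ 0` for one element (`hT`, `y l ≠ 0`), and `E` is not empty. -/

namespace BMS

open BMF MvPolynomial

private def sminRel {k : Type} [Field k] {L : Type} [Field L] (ψ : k →+* L) {m : ℕ} (T : L)
    (y : Fin m → L) (f : (Fin m → ℕ) → Polynomial k) (E : Finset (Fin m → ℕ)) : Prop :=
  E.Nonempty ∧ (∀ e ∈ E, f e ≠ 0) ∧ ∑ e ∈ E, (f e).eval₂ ψ T * ∏ l, y l ^ e l = 0

private theorem smin_exists {k : Type} [Field k] {L : Type} [Field L] (ψ : k →+* L) {m : ℕ}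
    (T : L) (y : Fin m → L) (F : MvPolynomial (Option (Fin m)) k) (hF : F ≠ 0)
    (hF0 : eval₂ ψ (fun o => Option.elim o T y) F = 0) :
    ∃ (f : (Fin m → ℕ) → Polynomial k) (E : Finset (Fin m → ℕ)), sminRel ψ T y f E := by
  classical
  set G : MvPolynomial (Fin m) (Polynomial k) := optionEquivRight k (Fin m) F with hG
  have hG0 : G ≠ 0 := by
    intro h
    apply hF
    have := (optionEquivRight k (Fin m)).injective (a₁ := F) (a₂ := 0) (by rw [← hG, h, map_zero])
    exact this
  have hcomp : (eval₂Hom (Polynomial.eval₂RingHom ψ T) y).comp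
      (optionEquivRight k (Fin m)).toRingEquiv.toRingHom
        = eval₂Hom ψ (fun o => Option.elim o T y) := by
    apply MvPolynomial.ringHom_ext
    · intro r
      simp
    · intro i
      rcases i with _ | i
      · simp
      · simp
  have hev : eval₂ (Polynomial.eval₂RingHom ψ T) y G = 0 := by
    have h := congrArg (fun φ : MvPolynomial (Option (Fin m)) k →+* L => φ F) hcomp
    simp only [RingHom.comp_apply] at h
    rw [coe_eval₂Hom, coe_eval₂Hom, hF0] at h
    exact h
  refine ⟨fun e => G.coeff (Finsupp.equivFunOnFinite.symm e),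
    G.support.image (fun s : Fin m →₀ ℕ => ⇑s), ?_, ?_, ?_⟩
  · exact (Finset.Nonempty.image (MvPolynomial.support_nonempty.mpr hG0) _)
  · intro e he
    rw [Finset.mem_image] at he
    obtain ⟨s, hs, rfl⟩ := he
    have h1 : Finsupp.equivFunOnFinite.symm (s : Fin m → ℕ) = s :=
      Finsupp.equivFunOnFinite.symm_apply_apply s
    show G.coeff (Finsupp.equivFunOnFinite.symm (s : Fin m → ℕ)) ≠ 0
    rw [h1]
    exact MvPolynomial.mem_support_iff.mp hs
  · rw [Finset.sum_image (fun a _ b _ h => DFunLike.coe_injective h)]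
    rw [MvPolynomial.eval₂_eq'] at hev
    rw [← hev]
    apply Finset.sum_congr rfl
    intro s _
    have h1 : Finsupp.equivFunOnFinite.symm (s : Fin m → ℕ) = s :=
      Finsupp.equivFunOnFinite.symm_apply_apply s
    show Polynomial.eval₂ ψ T (G.coeff (Finsupp.equivFunOnFinite.symm (s : Fin m → ℕ))) * _ = _
    rw [h1]
    rfl

theorem min_relation {k : Type} [Field k] {L : Type} [Field L] (ψ : k →+* L) {m : ℕ} (T : L)
    (hT : ∀ f : Polynomial k, f ≠ 0 → f.eval₂ ψ T ≠ 0) (y : Fin m → L) (hy : ∀ l, y l ≠ 0)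
    (F : MvPolynomial (Option (Fin m)) k) (hF : F ≠ 0)
    (hF0 : eval₂ ψ (fun o => Option.elim o T y) F = 0) :
    ∃ (n : ℕ) (e : Fin (n + 1) → Fin m → ℕ) (f : Fin (n + 1) → Polynomial k), 1 ≤ n ∧
      Function.Injective e ∧ (∀ i, f i ≠ 0) ∧
      NVS (fun i => (f i).eval₂ ψ T * ∏ l, y l ^ e i l) := by
  classical
  have hex : ∃ c : ℕ, ∃ (f : (Fin m → ℕ) → Polynomial k) (E : Finset (Fin m → ℕ)),
      sminRel ψ T y f E ∧ E.card = c := by
    obtain ⟨f, E, h⟩ := smin_exists ψ T y F hF hF0
    exact ⟨E.card, f, E, h, rfl⟩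
  obtain ⟨f, E, ⟨hne, hf, hsum⟩, hcard⟩ := Nat.find_spec hex
  have hmin : ∀ E' : Finset (Fin m → ℕ), E'.card < E.card → ¬ sminRel ψ T y f E' := by
    intro E' hlt hrel
    exact Nat.find_min hex (hcard ▸ hlt) ⟨f, E', hrel, rfl⟩
  have hterm : ∀ e ∈ E, (f e).eval₂ ψ T * ∏ l, y l ^ e l ≠ 0 := by
    intro e he
    exact mul_ne_zero (hT _ (hf e he))
      (Finset.prod_ne_zero_iff.mpr fun l _ => pow_ne_zero _ (hy l))
  have hpos : 0 < E.card := Finset.card_pos.mpr hne
  have hcard1 : E.card ≠ 1 := by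
    intro h1
    obtain ⟨a, ha⟩ := Finset.card_eq_one.mp h1
    have := hterm a (by rw [ha]; exact Finset.mem_singleton_self a)
    rw [ha, Finset.sum_singleton] at hsum
    exact this hsum
  obtain ⟨n, hn⟩ : ∃ n, E.card = n + 1 := ⟨E.card - 1, by omega⟩
  have hn1 : 1 ≤ n := by omega
  let eq := E.equivFinOfCardEq hn
  let e : Fin (n + 1) → Fin m → ℕ := fun i => (eq.symm i : Fin m → ℕ)
  have hinj : Function.Injective e := fun a b h => eq.symm.injective (Subtype.ext h)
  have hmem : ∀ i, e i ∈ E := fun i => (eq.symm i).2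
  refine ⟨n, e, fun i => f (e i), hn1, hinj, fun i => hf _ (hmem i), ?_, ?_⟩
  · rw [← hsum]
    have h1 := Equiv.sum_comp eq.symm
      (fun x : {x // x ∈ E} => (f (x : Fin m → ℕ)).eval₂ ψ T * ∏ l, y l ^ (x : Fin m → ℕ) l)
    rw [Finset.sum_coe_sort E (fun x => (f x).eval₂ ψ T * ∏ l, y l ^ x l)] at h1
    exact h1
  · intro I hI hIu hzero
    have hcI : I.card < n + 1 := by
      have h2 : I ⊂ Finset.univ := Finset.ssubset_univ_iff.mpr hIu
      have := Finset.card_lt_card h2
      rwa [Finset.card_univ, Fintype.card_fin] at this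
    apply hmin (I.image e)
    · rw [Finset.card_image_of_injective _ hinj, hn]
      exact hcI
    · refine ⟨hI.image e, ?_, ?_⟩
      · intro x hx
        obtain ⟨i, _, rfl⟩ := Finset.mem_image.mp hx
        exact hf _ (hmem i)
      · rw [Finset.sum_image (fun a _ b _ h => hinj h)]
        exact hzero

end BMS
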