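import Pool.Agent.Lib.MP_a325a5_ag.F2.SLine
import Pool.Agent.Lib.MP_a325a5_ag.F2.SConst
import Pool.Agent.Lib.MP_a325a5_ag.F2.SAlg
import Pool.Agent.Lib.MP_a325a5_ag.F2.SDens
import Pool.Agent.Lib.MP_a325a5_ag.F2.SDep
import Pool.Agent.Lib.MP_a325a5_ag.F2.SMin
import Pool.Agent.Lib.MP_a325a5_ag.F2.SFun
import Pool.Agent.Lib.MP_a325a5_ag.S.ThmS

/-! The core: small ranks are not dense over a line.

Proof.  `line_gen`: `T`.  If `T` is a constant then `const_case` (the `c j` are units: `p (inl j)` is).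
Otherwise `T` is transcendental over `ℂ`.  Let `S' ⊆ S` be the points whose parameter is not in `T₁`
(`fin_T1C`); `dens_sub`: `S'` is dense too, and not empty; for `s ∈ S'` the rank of the first three
coordinates is at least two, so `2 + td ℂ p < mr p ≤ m + 3` (`mr_le_card`): `td ℂ p = m`,
`mr p = m + 3` and `mr s ≤ 2` for all `s ∈ S'`.  The points of `S'` are algebraic (`alg_t`, `alg_pt`).
`dep_qbar` and `min_relation` (with `ψ = (algebraMap ℂ L).comp φ`) give `n`, `e`, `f`; `thmS` gives the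
finite sets `T_*`, `H`; `exists_avoid` of `SFun` (the product of finitely many functions that do not
vanish at `p` does not vanish on `S'`) gives a point `s ∈ S'` at which no proper partial sum of
`f_i(t) ∏ s (inr l) ^ e i l` vanishes, the parameter is not in `T_*` and no binomial of `H` vanishes;
the whole sum vanishes (`h2`).  Contradiction to `thmS` for the algebraic point of `s`, its rank is
`≤ mr s` (`mr_le_of_pow_mem`, and `mr` does not change under `φ`: `mr_congr`). -/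

namespace BMS

open BMF Pool.Agent.Lib.MP_a325a5_ag.UL MvPolynomial

/-- an element of an extension of `ℂ` that is not a constant is transcendental -/
private theorem SCore_tr (φ : AlgebraicClosure ℚ →+* ℂ) {L : Type} [Field L] [Algebra ℂ L] (T : L)
    (hTt : ∀ t : ℂ, T ≠ algebraMap ℂ L t) (f : Polynomial (AlgebraicClosure ℚ)) (hf : f ≠ 0) :
    f.eval₂ ((algebraMap ℂ L).comp φ) T ≠ 0 := by
  intro h0
  have h1 : Polynomial.aeval T (f.map φ) = 0 := by
    rw [Polynomial.aeval_def, Polynomial.eval₂_map]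
    exact h0
  have h2 : f.map φ ≠ 0 := (Polynomial.map_ne_zero_iff φ.injective).2 hf
  have h3 : IsIntegral ℂ T := IsAlgebraic.isIntegral ⟨f.map φ, h2, h1⟩
  have h4 : (minpoly ℂ T).degree = 1 :=
    IsAlgClosed.degree_eq_one_of_irreducible ℂ (minpoly.irreducible h3)
  obtain ⟨t, ht⟩ := minpoly.mem_range_of_degree_eq_one ℂ T h4
  exact hTt t ht.symm

/-- the rank of a subfamily -/
private theorem SCore_sub {A : Type} [Field A] {ι κ : Type} [Fintype ι] [Fintype κ] (x : ι → Aˣ)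
    (f : κ → ι) : mr (fun j => x (f j)) ≤ mr x :=
  mr_le_of_pow_mem x _ fun j => ⟨1, one_pos, by
    rw [pow_one]
    exact Subgroup.subset_closure ⟨f j, rfl⟩⟩

/-- the rank does not change under an embedding of fields -/
private theorem SCore_emb {A B : Type} [Field A] [Field B] {ι : Type} [Fintype ι] (φ : A →+* B)
    (x : ι → Aˣ) (y : ι → Bˣ) (h : ∀ i, (y i : B) = φ (x i)) : mr x = mr y := by
  refine mr_congr x y fun a => ?_
  have h1 : ∀ i, y i = Units.map (φ : A →* B) (x i) := fun i => Units.ext (h i)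
  have h2 : ∏ i, y i ^ a i = Units.map (φ : A →* B) (∏ i, x i ^ a i) := by
    rw [map_prod]
    exact Finset.prod_congr rfl fun i _ => by rw [map_zpow, h1]
  rw [h2]
  constructor
  · intro h3
    apply Units.ext
    apply φ.injective
    have := congrArg (fun u : Bˣ => (u : B)) h3
    simpa using this
  · intro h3
    rw [h3, map_one]

/-- monomials in the last coordinates do not increase the rank -/
private theorem SCore_mon {A : Type} [Field A] {m n : ℕ} (c : Fin 3 → Aˣ) (z : Fin m → Aˣ)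
    (e : Fin (n + 1) → Fin m → ℕ) :
    mr (Sum.elim c fun i => ∏ l, z l ^ e i l) ≤ mr (Sum.elim c z) := by
  refine mr_le_of_pow_mem _ _ fun j => ⟨1, one_pos, ?_⟩
  rw [pow_one]
  rcases j with j | i
  · exact Subgroup.subset_closure ⟨.inl j, rfl⟩
  · refine Subgroup.prod_mem _ fun l _ => Subgroup.pow_mem _ ?_ _
    exact Subgroup.subset_closure ⟨.inr l, rfl⟩

theorem shell_core {m : ℕ} (α γ : Fin 3 → AlgebraicClosure ℚ) (hα : Function.Injective α)
    (hγ : ∀ j, γ j ≠ 0) (τ : AlgebraicClosure ℚ →+* ℂ)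
    (hNA : ∀ d : Fin 3 → ℝ, d ≠ 0 → (ray (fun j => τ (γ j)) (fun j => τ (α j)) d).Finite)
    (φ : AlgebraicClosure ℚ →+* ℂ) (S : Set (Fin 3 ⊕ Fin m → ℂˣ))
    {L : Type} [Field L] [Algebra ℂ L] (p : Fin 3 ⊕ Fin m → Lˣ) (h1 : vanIdeal S ≤ locus ℂ p)
    (h2 : ∀ s ∈ S, locus ℂ p ≤ locus ℂ s)
    (hline : ∀ s ∈ S, ∃ t : ℂ, ∀ j, (s (.inl j) : ℂ) = φ (γ j) * (t - φ (α j)))
    (htd : m ≤ td ℂ p) (hrk : ∀ s ∈ S, mr s + td ℂ p < mr p) : False := by
  classical
  set g : Fin 3 → ℂ := fun j => φ (γ j) with hg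
  set b : Fin 3 → ℂ := fun j => φ (α j) with hb
  have hg0 : ∀ j, g j ≠ 0 := fun j => (map_ne_zero φ).2 (hγ j)
  obtain ⟨T, hT⟩ := line_gen g b hg0 S p h1 hline
  by_cases hconst : ∃ t₀ : ℂ, T = algebraMap ℂ L t₀
  · obtain ⟨t₀, rfl⟩ := hconst
    have hT' : ∀ j, (p (.inl j) : L) = algebraMap ℂ L (g j * (t₀ - b j)) := by
      intro j
      rw [hT j, map_mul, map_sub]
    have hne : ∀ j, g j * (t₀ - b j) ≠ 0 := by
      intro j h0
      have := hT' j
      rw [h0, map_zero] at this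
      exact (p (.inl j)).ne_zero this
    exact const_case S p h1 h2 htd hrk (fun j => Units.mk0 _ (hne j)) fun j => hT' j
  push Not at hconst
  -- the points with parameter outside `T₁`
  set T₁ : Set ℂ := {t : ℂ | ∃ c : Fin 3 → ℂˣ, (∀ j, (c j : ℂ) = φ (γ j) * (t - φ (α j))) ∧
    mr c ≤ 1} with hT₁
  have hT₁f : T₁.Finite := fin_T1C α γ hα hγ φ
  set S' : Set (Fin 3 ⊕ Fin m → ℂˣ) :=
    {s | s ∈ S ∧ ∀ t ∈ T₁, (s (.inl 0) : ℂ) ≠ g 0 * (t - b 0)} with hS'
  have h1' : vanIdeal S' ≤ locus ℂ p := dens_sub g b hg0 S p h1 T₁ hT₁f T hT hconst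
  have h2' : ∀ s ∈ S', locus ℂ p ≤ locus ℂ s := fun s hs => h2 s hs.1
  have hmr1 : ∀ s ∈ S', ¬ mr (fun j : Fin 3 => s (.inl j)) ≤ 1 := by
    intro s hs hle
    obtain ⟨t, ht⟩ := hline s hs.1
    exact hs.2 t ⟨fun j => s (.inl j), ht, hle⟩ (ht 0)
  have hmrle : ∀ s : Fin 3 ⊕ Fin m → ℂˣ, mr (fun j : Fin 3 => s (.inl j)) ≤ mr s := fun s =>
    SCore_sub s Sum.inl
  have hcard : mr p ≤ m + 3 := by
    have := mr_le_card p
    rw [Fintype.card_sum, Fintype.card_fin, Fintype.card_fin] at this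
    omega
  obtain ⟨s₀, hs₀, -⟩ := exists_avoid S' p h1' ∅ Set.finite_empty fun f hf => absurd hf (by simp)
  have htdm : td ℂ p = m ∧ mr p = m + 3 := by
    have e1 := hmr1 s₀ hs₀
    have e2 := hmrle s₀
    have e3 := hrk s₀ hs₀.1
    omega
  have hmr2 : ∀ s ∈ S', mr s ≤ 2 := by
    intro s hs
    have e3 := hrk s hs.1
    omega
  -- the points of `S'` are algebraic
  have halg : ∀ s ∈ S', ∃ (t' : AlgebraicClosure ℚ) (c' : Fin 3 → (AlgebraicClosure ℚ)ˣ)
      (z' : Fin m → (AlgebraicClosure ℚ)ˣ), (∀ j, (c' j : AlgebraicClosure ℚ) = γ j * (t' - α j)) ∧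
      (∀ j, (s (.inl j) : ℂ) = φ (c' j)) ∧ ∀ l, (s (.inr l) : ℂ) = φ (z' l) := by
    intro s hs
    obtain ⟨t, ht⟩ := hline s hs.1
    have h3 : mr (fun j : Fin 3 => s (.inl j)) ≤ 2 := (hmrle s).trans (hmr2 s hs)
    obtain ⟨t', ht'⟩ := alg_t α γ hα hγ φ t (fun j => s (.inl j)) ht h3
    have hc : ∀ j, (s (.inl j) : ℂ) = φ (γ j * (t' - α j)) := by
      intro j
      rw [map_mul, map_sub, ht', ht j]
    have hne : ∀ j, γ j * (t' - α j) ≠ 0 := by
      intro j h0
      have := hc j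
      rw [h0, map_zero] at this
      exact (s (.inl j)).ne_zero this
    have hse : Sum.elim (fun j : Fin 3 => s (.inl j)) (fun l : Fin m => s (.inr l)) = s := by
      funext i
      rcases i with i | i <;> rfl
    obtain ⟨z', hz'⟩ := alg_pt φ (fun j => s (.inl j)) (fun j => Units.mk0 _ (hne j)) hc
      (fun l : Fin m => s (.inr l)) (by rw [hse]; exact hmr2 s hs) (hmr1 s hs)
    exact ⟨t', fun j => Units.mk0 _ (hne j), z', fun j => rfl, hc, hz'⟩
  obtain ⟨F, hF, hF0⟩ := dep_qbar α γ hγ φ S' p h1' h2' htdm.1.le T hT (by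
    intro s hs i
    obtain ⟨t', c', z', -, e2, e3⟩ := halg s hs
    rcases i with i | i
    · exact ⟨c' i, (e2 i).symm⟩
    · exact ⟨z' i, (e3 i).symm⟩)
  obtain ⟨n, e, f, hn, he, hf, hnvs⟩ := min_relation ((algebraMap ℂ L).comp φ) T
    (SCore_tr φ T hconst) (fun l => (p (.inr l) : L)) (fun l => (p (.inr l)).ne_zero) F hF hF0
  obtain ⟨Ts, hTs, H, hH, hHo, hmain⟩ := thmS α γ hα hγ τ hNA n hn f hf
  -- the polynomials to avoid
  set one' : Fin (n + 1) := ⟨1, by omega⟩ with hone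
  have hT0 : (p (.inl 0) : L) = algebraMap ℂ L (g 0) * (T - algebraMap ℂ L (b 0)) := hT 0
  set P₁ : Set (MvPolynomial (Fin 3 ⊕ Fin m) ℂ) :=
    (fun I : Finset (Fin (n + 1)) => ∑ i ∈ I, pterm g b φ (f i) (e i)) ''
      {I | I.Nonempty ∧ I ≠ Finset.univ} with hP₁
  set P₂ : Set (MvPolynomial (Fin 3 ⊕ Fin m) ℂ) := (fun t => tpol g b - C (φ t)) '' Ts with hP₂
  set P₃ : Set (MvPolynomial (Fin 3 ⊕ Fin m) ℂ) :=
    (fun h : Fin (n + 1) → (AlgebraicClosure ℚ)ˣ × (Fin 3 → ℤ) =>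
      pbin (e one') (e 0) (φ ((h one').1 : AlgebraicClosure ℚ)) (h one').2) '' H with hP₃
  obtain ⟨s, hs, hav⟩ := exists_avoid S' p h1' (P₁ ∪ P₂ ∪ P₃)
    ((((Set.toFinite _).image _).union (hTs.image _)).union (hH.image _)) (by
      rintro q ((⟨I, ⟨hI1, hI2⟩, rfl⟩ | ⟨t, ht, rfl⟩) | ⟨h, hh, rfl⟩)
      · rw [mem_locus, map_sum]
        have e1 := hnvs.2 I hI1 hI2
        intro e2
        apply e1
        rw [← e2]
        exact Finset.sum_congr rfl fun i _ => (aeval_term g b (hg0 0) φ (f i) (e i) p T hT0).symm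
      · rw [mem_locus, map_sub, aeval_tpol g b (hg0 0) p T hT0, aeval_C, sub_eq_zero]
        exact hconst _
      · refine bin_gen (e one') (e 0) ?_ (Units.map (φ : AlgebraicClosure ℚ →* ℂ) (h one').1) ?_
          (h one').2 p htdm.2
        · intro h0
          have := congrArg Fin.val (he h0)
          simp [hone] at this
        · exact MonoidHom.isOfFinOrder _ (hHo h hh one'))
  obtain ⟨t', c', z', hc', e2, e3⟩ := halg s hs
  have hsT : (s (.inl 0) : ℂ) = algebraMap ℂ ℂ (g 0) * (φ t' - algebraMap ℂ ℂ (b 0)) := by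
    rw [e2 0, hc' 0, map_mul, map_sub]
    rfl
  have hterm : ∀ i, aeval (fun i => (s i : ℂ)) (pterm g b φ (f i) (e i)) =
      φ ((f i).eval t' * ((∏ l, z' l ^ e i l : (AlgebraicClosure ℚ)ˣ) : AlgebraicClosure ℚ)) := by
    intro i
    rw [aeval_term g b (hg0 0) φ (f i) (e i) s (φ t') hsT, map_mul, Units.coe_prod, map_prod]
    congr 1
    · rw [← Polynomial.eval₂_id (p := f i), Polynomial.hom_eval₂]
      rfl
    · refine Finset.prod_congr rfl fun l _ => ?_
      rw [e3 l, Units.val_pow_eq_pow_val, map_pow]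
  have hNV : NVS fun i => (f i).eval t' *
      ((∏ l, z' l ^ e i l : (AlgebraicClosure ℚ)ˣ) : AlgebraicClosure ℚ) := by
    constructor
    · have e4 : ∑ i, pterm g b φ (f i) (e i) ∈ locus ℂ p := by
        rw [mem_locus, map_sum, ← hnvs.1]
        exact Finset.sum_congr rfl fun i _ => aeval_term g b (hg0 0) φ (f i) (e i) p T hT0
      have e5 := h2' s hs e4
      rw [mem_locus, map_sum] at e5
      apply φ.injective
      rw [map_zero, map_sum, ← e5]
      exact Finset.sum_congr rfl fun i _ => (hterm i).symm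
    · intro I hI1 hI2 e6
      have e7 := hav _ (Or.inl (Or.inl ⟨I, ⟨hI1, hI2⟩, rfl⟩))
      apply e7
      rw [mem_locus, map_sum]
      have e8 := congrArg φ e6
      rw [map_zero, map_sum] at e8
      rw [← e8]
      exact Finset.sum_congr rfl fun i _ => hterm i
  have hrank : mr (Sum.elim c' fun i => ∏ l, z' l ^ e i l) ≤ 2 := by
    refine (SCore_mon c' z' e).trans ?_
    rw [SCore_emb φ (Sum.elim c' z') s (by
      intro i
      rcases i with i | i
      · exact e2 i
      · exact e3 i)]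
    exact hmr2 s hs
  rcases hmain t' c' (fun i => ∏ l, z' l ^ e i l) hc' hNV hrank with h3 | ⟨h, hh, h3⟩
  · apply hav _ (Or.inl (Or.inr ⟨t', h3, rfl⟩))
    rw [mem_locus, map_sub, aeval_tpol g b (hg0 0) s (φ t') hsT, aeval_C, sub_eq_zero]
    rfl
  · apply hav _ (Or.inr ⟨h, hh, rfl⟩)
    have h4 := h3 one'
    rw [mem_locus]
    refine (aeval_bin (e one') (e 0) (Units.map (φ : AlgebraicClosure ℚ →* ℂ) (h one').1)
      (h one').2 s).2 ?_
    have hsc : ∀ j, s (.inl j) = Units.map (φ : AlgebraicClosure ℚ →* ℂ) (c' j) := fun j =>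
      Units.ext (e2 j)
    have hsz : ∀ l, s (.inr l) = Units.map (φ : AlgebraicClosure ℚ →* ℂ) (z' l) := fun l =>
      Units.ext (e3 l)
    have h5 := congrArg (Units.map (φ : AlgebraicClosure ℚ →* ℂ)) h4
    rw [map_mul, map_mul, map_prod, map_prod, map_prod] at h5
    simp only [map_pow, map_zpow] at h5
    simp only [hsc, hsz]
    rw [h5]
    congr 2

end BMS
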