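import Pool.Agent.Lib.MP_a325a5_ag.UL.Pts

/-! The generic point is on the line.

Proof.  `T = p (inl 0) / g 0 + b 0`.  For every `j` the polynomial
`C (g 0) * X (inl j) - C (g j) * X (inl 0) - C (g 0 * g j * (b 0 - b j))` vanishes on `S`, so at `p`. -/

namespace BMS

open Pool.Agent.Lib.MP_a325a5_ag.UL MvPolynomial

theorem line_gen {m : ℕ} (g b : Fin 3 → ℂ) (hg : ∀ j, g j ≠ 0) (S : Set (Fin 3 ⊕ Fin m → ℂˣ))
    {L : Type} [Field L] [Algebra ℂ L] (p : Fin 3 ⊕ Fin m → Lˣ) (h1 : vanIdeal S ≤ locus ℂ p)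
    (hline : ∀ s ∈ S, ∃ t : ℂ, ∀ j, (s (.inl j) : ℂ) = g j * (t - b j)) :
    ∃ T : L, ∀ j, (p (.inl j) : L) = algebraMap ℂ L (g j) * (T - algebraMap ℂ L (b j)) := by
  have hg0 : algebraMap ℂ L (g 0) ≠ 0 := by
    intro h
    exact hg 0 ((map_eq_zero (algebraMap ℂ L)).mp h)
  refine ⟨(p (.inl 0) : L) / algebraMap ℂ L (g 0) + algebraMap ℂ L (b 0), fun j => ?_⟩
  have hmem : (C (g 0) * X (.inl j) - C (g j) * X (.inl 0) - C (g 0 * g j * (b 0 - b j)) :
      MvPolynomial (Fin 3 ⊕ Fin m) ℂ) ∈ vanIdeal S := by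
    rw [mem_vanIdeal]
    intro s hs
    obtain ⟨t, ht⟩ := hline s hs
    simp only [map_sub, map_mul, eval_C, eval_X]
    rw [ht j, ht 0]
    ring
  have h2 := h1 hmem
  rw [mem_locus] at h2
  simp only [map_sub, map_mul, aeval_C, aeval_X] at h2
  have h3 : (p (.inl j) : L) * algebraMap ℂ L (g 0) =
      algebraMap ℂ L (g j) * ((p (.inl 0) : L) / algebraMap ℂ L (g 0) + algebraMap ℂ L (b 0) -
        algebraMap ℂ L (b j)) * algebraMap ℂ L (g 0) := by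
    have h4 : (p (.inl 0) : L) / algebraMap ℂ L (g 0) * algebraMap ℂ L (g 0) = p (.inl 0) :=
      div_mul_cancel₀ _ hg0
    linear_combination h2 - algebraMap ℂ L (g j) * h4
  exact mul_right_cancel₀ hg0 h3

end BMS
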