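import Pool.Agent.Lib.MP_a325a5_ag.F2.SClear
import Pool.Agent.Lib.MP_a325a5_ag.F2.SBas
import Pool.Agent.Lib.MP_a325a5_ag.F2.SCore
import Pool.Agent.Lib.MP_a325a5_ag.UL.PtsDense
import Pool.Agent.Lib.MP_a325a5_ag.UL.KD

/-! The theorem for a subvariety of `𝔾_mⁿ` with three monomials on a line.

Proof.  `exists_generic X`: the generic point `p₀`; `zdim_eq`: `n ≤ td ℂ p₀ + 3`; `denseIn_iff`: suppose that
`S₀ = {x ∈ X | mr x + td ℂ p₀ < mr p₀}` is dense.  `exists_compl`: `m`, `u`, `n = m + 3`.  Let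
`A = Sum.elim a u : Fin 3 ⊕ Fin m → Fin n → ℤ`, `q x = fun j => ∏ x i ^ A j i` (for points `x` over any
extension), `S = q '' S₀`, `p = q p₀`.  `vanIdeal S ≤ locus ℂ p`: `exists_clear` for `f ∈ vanIdeal S` gives a
polynomial `P` that vanishes on `S₀`, so at `p₀`; the product of the coordinates is not zero.
`locus ℂ p ≤ locus ℂ s` for `s = q x`: `locus_monomial_le` (constants `1`) and `vanIdeal X ≤ locus ℂ x`.
`mr (q x) = mr x`: `mr_le_of_pow_mem` twice (`x i ^ N` is a product of powers of the `q x j`).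
`td ℂ p₀ ≤ td ℂ p`: `x i ^ N ∈` the field generated, `td_le_of_algebraic`; also `td ℂ p ≤ td ℂ p₀` in the
same way.  Apply `shell_core`. -/

namespace BMS

open BMF Pool.Agent.Lib.MP_a325a5_ag.UL MvPolynomial

/-- the Laurent monomials of a point -/
private def SRed_q {M ι κ : Type} [CommGroup M] [Fintype ι] (A : κ → ι → ℤ) (x : ι → M) : κ → M :=
  fun j => ∏ i, x i ^ A j i

private theorem SRed_pow {M ι κ : Type} [CommGroup M] [Fintype ι] [DecidableEq ι] [Fintype κ]
    (A : κ → ι → ℤ) (x : ι → M)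
    (c : κ → ℤ) (i : ι) (N : ℕ) (h : ∀ k, (if k = i then (N : ℤ) else 0) = ∑ j, c j * A j k) :
    x i ^ N = ∏ j, SRed_q A x j ^ c j := by
  unfold SRed_q
  have e1 : ∏ j, (∏ i, x i ^ A j i) ^ c j = ∏ k, x k ^ (∑ j, c j * A j k) := by
    have e3 : ∀ k, x k ^ (∑ j, c j * A j k) = ∏ j, x k ^ (c j * A j k) := by
      intro k
      induction (Finset.univ : Finset κ) using Finset.cons_induction with
      | empty => simp
      | cons y s hy ih => rw [Finset.sum_cons, Finset.prod_cons, zpow_add, ih]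
    simp_rw [e3]
    rw [Finset.prod_comm]
    refine Finset.prod_congr rfl fun j _ => ?_
    rw [← Finset.prod_zpow]
    refine Finset.prod_congr rfl fun k _ => ?_
    rw [mul_comm, zpow_mul]
  rw [e1]
  have e2 : ∀ k, x k ^ (∑ j, c j * A j k) = if k = i then x k ^ N else 1 := by
    intro k
    rw [← h k]
    split_ifs with hk
    · rw [zpow_natCast]
    · rw [zpow_zero]
  simp_rw [e2]
  rw [Finset.prod_ite_eq' Finset.univ i]
  simp

private theorem SRed_closure {M ι κ : Type} [CommGroup M] [Fintype κ] (y : κ → M) (c : κ → ℤ) :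
    ∏ j, y j ^ c j ∈ Subgroup.closure (Set.range y) :=
  Subgroup.prod_mem _ fun j _ =>
    Subgroup.zpow_mem _ (Subgroup.subset_closure (Set.mem_range_self j)) _

private theorem SRed_alg {L κ : Type} [Field L] [Algebra ℂ L] [Fintype κ] (y : κ → Lˣ) (c : κ → ℤ)
    (x : Lˣ) (N : ℕ) (hN : 0 < N) (h : x ^ N = ∏ j, y j ^ c j) :
    IsAlgebraic (Algebra.adjoin ℂ (Set.range fun j => (y j : L))) (x : L) := by
  have hy : ∀ j, IsAlgebraic (Algebra.adjoin ℂ (Set.range fun j => (y j : L))) (y j : L) := by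
    intro j
    have hmem : (y j : L) ∈ Algebra.adjoin ℂ (Set.range fun j => (y j : L)) :=
      Algebra.subset_adjoin (Set.mem_range_self j)
    exact isAlgebraic_algebraMap (⟨(y j : L), hmem⟩ :
      Algebra.adjoin ℂ (Set.range fun j => (y j : L)))
  have h1 : ∀ s : Finset κ, IsAlgebraic (Algebra.adjoin ℂ (Set.range fun j => (y j : L)))
      ((∏ j ∈ s, y j ^ c j : Lˣ) : L) := by
    intro s
    induction s using Finset.cons_induction with
    | empty =>
      rw [Finset.prod_empty, Units.val_one]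
      exact isAlgebraic_one
    | cons a s ha ih =>
      rw [Finset.prod_cons, Units.val_mul]
      refine IsAlgebraic.mul ?_ ih
      rcases Int.eq_nat_or_neg (c a) with ⟨k, hk | hk⟩
      · rw [hk, zpow_natCast, Units.val_pow_eq_pow_val]
        exact (hy a).pow k
      · rw [hk, zpow_neg, zpow_natCast, ← inv_pow, Units.val_pow_eq_pow_val, Units.val_inv_eq_inv_val]
        exact ((hy a).inv).pow k
  have h2 : IsAlgebraic (Algebra.adjoin ℂ (Set.range fun j => (y j : L))) ((x : L) ^ N) := by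
    have := h1 Finset.univ
    rw [← h, Units.val_pow_eq_pow_val] at this
    exact this
  exact h2.of_pow hN

theorem not_dense {n : ℕ} (α γ : Fin 3 → AlgebraicClosure ℚ) (hα : Function.Injective α)
    (hγ : ∀ j, γ j ≠ 0) (τ : AlgebraicClosure ℚ →+* ℂ)
    (hNA : ∀ d : Fin 3 → ℝ, d ≠ 0 → (ray (fun j => τ (γ j)) (fun j => τ (α j)) d).Finite)
    (φ : AlgebraicClosure ℚ →+* ℂ) (a : Fin 3 → Fin n → ℤ) (ha : LinearIndependent ℤ a)
    (X : Set (Fin n → ℂˣ)) (hX : IrrClosed X) (hdim : (n : WithBot ℕ∞) ≤ zdim X + 3)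
    (hline : ∀ x ∈ X, ∃ t : ℂ, ∀ j,
      ((∏ i, x i ^ a j i : ℂˣ) : ℂ) = φ (γ j) * (t - φ (α j))) :
    ¬ DenseIn (HLatyp X) X := by
  classical
  intro hd
  obtain ⟨L, _, _, p₀, hp₀⟩ := exists_generic X hX
  rw [denseIn_iff X hX p₀ hp₀] at hd
  have hdim' : n ≤ td ℂ p₀ + 3 := by
    rw [zdim_eq X p₀ hp₀] at hdim
    exact_mod_cast hdim
  obtain ⟨m, u, hn, hu⟩ := exists_compl a ha
  set S₀ : Set (Fin n → ℂˣ) := {x | x ∈ X ∧ mr x + td ℂ p₀ < mr p₀} with hS₀
  set A : Fin 3 ⊕ Fin m → Fin n → ℤ := Sum.elim a u with hA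
  have hpow : ∀ i : Fin n, ∃ N : ℕ, 0 < N ∧ ∃ c : Fin 3 ⊕ Fin m → ℤ,
      ∀ k, (if k = i then (N : ℤ) else 0) = ∑ j, c j * A j k := by
    intro i
    obtain ⟨N, hN, x, y, hxy⟩ := hu i
    refine ⟨N, hN, Sum.elim x y, fun k => ?_⟩
    rw [hxy k, Fintype.sum_sum_type]
    rfl
  -- the point
  have e1 : ∀ j, SRed_q A p₀ j = ∏ i, p₀ i ^ A j i := fun j => rfl
  refine shell_core α γ hα hγ τ hNA φ ((fun x => SRed_q A x) '' S₀) (SRed_q A p₀) ?_ ?_ ?_ ?_ ?_
  · intro f hf
    obtain ⟨P, N, hP⟩ := exists_clear A f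
    have h1 : P ∈ vanIdeal S₀ := by
      rw [mem_vanIdeal]
      intro x hx
      have h2 := hP ℂ x
      have h3 : aeval (fun i => (x i : ℂ)) P = eval (fun i => (x i : ℂ)) P := by
        rw [← MvPolynomial.coe_aeval_eq_eval]
        rfl
      rw [← h3, h2]
      have h4 := hf (SRed_q A x) ⟨x, hx, rfl⟩
      have h5 : aeval (fun j => ((∏ i, x i ^ A j i : ℂˣ) : ℂ)) f =
          eval (fun j => ((SRed_q A x j : ℂˣ) : ℂ)) f := by
        rw [← MvPolynomial.coe_aeval_eq_eval]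
        rfl
      rw [h5, h4, mul_zero]
    have h6 := hd h1
    rw [← hp₀, mem_locus, hP L p₀] at h6
    rw [mem_locus]
    rcases mul_eq_zero.mp h6 with h7 | h7
    · exfalso
      have h8 : ∏ i, (p₀ i : L) ≠ 0 := Finset.prod_ne_zero_iff.mpr fun i _ => (p₀ i).ne_zero
      exact pow_ne_zero N h8 h7
    · exact h7
  · rintro _ ⟨x, hx, rfl⟩
    have h1 : locus ℂ p₀ ≤ locus ℂ x := by
      rw [hp₀]
      exact (mem_iff_le_locus hX x).mp hx.1
    have h2 := locus_monomial_le x p₀ h1 A (fun _ => 1)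
    simp only [map_one, one_mul] at h2
    exact h2
  · rintro _ ⟨x, hx, rfl⟩
    exact hline x hx.1
  · have h1 : td ℂ p₀ ≤ td ℂ (SRed_q A p₀) := by
      apply td_le_of_algebraic
      intro i
      obtain ⟨N, hN, c, hc⟩ := hpow i
      exact SRed_alg (SRed_q A p₀) c (p₀ i) N hN (SRed_pow A p₀ c i N hc)
    omega
  · rintro _ ⟨x, hx, rfl⟩
    have h1 : mr (SRed_q A x) ≤ mr x := by
      apply mr_le_of_pow_mem
      intro j
      refine ⟨1, one_pos, ?_⟩
      rw [pow_one]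
      exact SRed_closure (ι := Fin n) x (A j)
    have h2 : td ℂ (SRed_q A p₀) ≤ td ℂ p₀ := by
      apply td_le_of_algebraic
      intro j
      exact SRed_alg p₀ (A j) (SRed_q A p₀ j) 1 one_pos (by rw [pow_one]; rfl)
    have h3 : mr p₀ ≤ mr (SRed_q A p₀) := by
      apply mr_le_of_pow_mem
      intro i
      obtain ⟨N, hN, c, hc⟩ := hpow i
      refine ⟨N, hN, ?_⟩
      rw [SRed_pow A p₀ c i N hc]
      exact SRed_closure (ι := Fin n) (SRed_q A p₀) c
    have h4 := hx.2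
    change mr (SRed_q A x) + td ℂ (SRed_q A p₀) < mr (SRed_q A p₀)
    omega

end BMS
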